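import Pool.Agent.Lib.MP_b26ec7_al.Koszul

set_option autoImplicit false

namespace Pool.Agent.Lib.MP_b26ec7_al

open Finset

universe u

variable {σ : Type} [LinearOrder σ]

/-- Indicator vector of a finite set. -/
def ind (τ : Finset σ) : σ → ℤ := fun v => if v ∈ τ then 1 else 0

/-- Unit vector. -/
def ev (v : σ) : σ → ℤ := fun w => if w = v then 1 else 0

lemma ind_insert {v : σ} {τ : Finset σ} (h : v ∉ τ) : ind (insert v τ) = ind τ + ev v := by
  funext w
  simp only [ind, ev, Finset.mem_insert, Pi.add_apply]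
  by_cases h1 : w = v
  · subst h1; simp [h]
  · simp [h1]

lemma ind_le_insert (v : σ) (τ : Finset σ) : ind τ ≤ ind (insert v τ) := by
  intro w
  simp only [ind, Finset.mem_insert]
  split_ifs <;> simp_all

lemma ev_nonneg (v : σ) : 0 ≤ ev v := by
  intro w
  simp only [ev, Pi.zero_apply]
  split_ifs <;> simp

lemma ev_self (v : σ) : ev v v = 1 := by simp [ev]

lemma ev_ne {v w : σ} (h : w ≠ v) : ev v w = 0 := by simp [ev, h]

/-- The multigraded piece of the Koszul complex. -/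
def Fam (a : σ → ℤ) (M : Set (σ → ℤ)) : Set (Finset σ) := {τ | a - ind τ ∈ M}

variable [Fintype σ]

/-- Total degree. -/
def sz (a : σ → ℤ) : ℤ := ∑ v, a v

omit [LinearOrder σ] in
lemma sz_add (a b : σ → ℤ) : sz (a + b) = sz a + sz b := by simp [sz, Finset.sum_add_distrib]

omit [LinearOrder σ] in
lemma sz_sub (a b : σ → ℤ) : sz (a - b) = sz a - sz b := by simp [sz, Finset.sum_sub_distrib]

omit [LinearOrder σ] in
lemma sz_zero : sz (0 : σ → ℤ) = 0 := by simp [sz]

lemma sz_ev (v : σ) : sz (ev v) = 1 := by simp [sz, ev]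

lemma sz_ind (τ : Finset σ) : sz (ind τ) = τ.card := by simp [sz, ind]

omit [LinearOrder σ] in
lemma sz_mono {a b : σ → ℤ} (h : a ≤ b) : sz a ≤ sz b := Finset.sum_le_sum fun v _ => h v

omit [LinearOrder σ] in
lemma sz_nonneg {a : σ → ℤ} (h : 0 ≤ a) : 0 ≤ sz a := Finset.sum_nonneg fun v _ => h v

omit [LinearOrder σ] in
lemma exists_lt_of_sz_lt {a b : σ → ℤ} (h : sz a < sz b) : ∃ v, a v < b v := by
  by_contra hn
  push Not at hn
  exact absurd (sz_mono (fun v => hn v)) (not_le.mpr h)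

variable (k : Type u) [Field k]

/-- The multigraded module with monomial basis `M` has regularity at most `r`. -/
def Rg (M : Set (σ → ℤ)) (r : ℤ) : Prop :=
  ∀ (a : σ → ℤ) (i : ℕ), r + i < sz a → Ex k (Fam a M) i

variable {k}

/-- Short exact sequences of monomial modules. -/
structure MSES (M1 M M2 : Set (σ → ℤ)) : Prop where
  cvx : ∀ a b c, a ≤ b → b ≤ c → a ∈ M → c ∈ M → b ∈ M
  mem : ∀ a, a ∈ M ↔ a ∈ M1 ∨ a ∈ M2
  disj : ∀ a, a ∈ M1 → a ∈ M2 → False
  up : ∀ a b, a ≤ b → a ∈ M1 → b ∈ M → b ∈ M1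

omit [Fintype σ] in
lemma MSES.ses {M1 M M2 : Set (σ → ℤ)} (h : MSES M1 M M2) (a : σ → ℤ) :
    SES (Fam a M1) (Fam a M) (Fam a M2) where
  cvx := fun _ u v h1 h2 =>
    h.cvx _ _ _ (sub_le_sub_left (ind_le_insert v _) a) (sub_le_sub_left (ind_le_insert u _) a)
      h2 h1
  mem := fun _ => h.mem _
  disj := fun _ => h.disj _
  down := fun _ v h1 h2 => h.up _ _ (sub_le_sub_left (ind_le_insert v _) a) h2 h1

lemma MSES.mid {M1 M M2 : Set (σ → ℤ)} (h : MSES M1 M M2) {r : ℤ} (h1 : Rg k M1 r)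
    (h2 : Rg k M2 r) : Rg k M r :=
  fun a i hi => (h.ses a).mid (h1 a i hi) (h2 a i hi)

lemma MSES.sub {M1 M M2 : Set (σ → ℤ)} (h : MSES M1 M M2) {r : ℤ} (h2 : Rg k M2 (r - 1))
    (h0 : Rg k M r) : Rg k M1 r :=
  fun a i hi => (h.ses a).sub (h2 a (i + 1) (by push_cast; omega)) (h0 a i hi)

lemma MSES.quot {M1 M M2 : Set (σ → ℤ)} (h : MSES M1 M M2) {r : ℤ} (h0 : Rg k M r)
    (h1 : Rg k M1 (r + 1)) : Rg k M2 r :=
  fun a i hi => (h.ses a).quot (h0 a i hi) (fun j hj => h1 a j (by omega))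

lemma Rg.mono {M : Set (σ → ℤ)} {r r' : ℤ} (h : Rg k M r) (hr : r ≤ r') : Rg k M r' :=
  fun a i hi => h a i (by omega)

lemma Rg.shift {M : Set (σ → ℤ)} {r : ℤ} (h : Rg k M r) (m : σ → ℤ) :
    Rg k {c | c - m ∈ M} (r + sz m) := by
  intro a i hi
  have : Fam a {c | c - m ∈ M} = Fam (a - m) M := by
    ext τ
    simp only [Fam, Set.mem_ofPred_eq]
    rw [sub_right_comm]
  rw [this]
  exact h _ i (by rw [sz_sub]; omega)

lemma ex_empty {F : Set (Finset σ)} (h : ∀ τ, τ ∉ F) (i : ℕ) : Ex k F i :=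
  fun _ _ _ => ⟨0, fun _ h0 => absurd rfl h0, fun τ hτ => absurd hτ (h τ)⟩

lemma rg_nonneg : Rg k {c : σ → ℤ | 0 ≤ c} 0 := by
  intro a i hi
  obtain ⟨p, hp⟩ := exists_lt_of_sz_lt (a := 0) (b := a) (by rw [sz_zero]; omega)
  refine ex_cone p (fun τ hτ => ?_) i
  simp only [Fam, Set.mem_ofPred_eq, ind_insert hτ]
  constructor
  · intro h w
    have := h w
    simp only [Pi.sub_apply, Pi.add_apply, Pi.zero_apply, ev, ind] at this hp ⊢
    by_cases hw : w = p
    · subst hw; simp [hτ]; omega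
    · simpa [hw] using this
  · intro h w
    have h1 := h w
    have h2 := ev_nonneg p w
    simp only [Pi.sub_apply, Pi.add_apply, Pi.zero_apply] at h1 h2 ⊢
    omega

lemma rg_of_zero {M : Set (σ → ℤ)} {r : ℤ} (x : σ) (hM : ∀ c ∈ M, c x = 0)
    (h : ∀ (a : σ → ℤ) (i : ℕ), a x = 0 → r + i < sz a → Ex k (Fam a M) i) : Rg k M r := by
  intro a i hi
  by_cases h0 : a x = 0
  · exact h a i h0 hi
  by_cases h1 : a x = 1
  · have hs : Shift x (Fam (a - ev x) M) (Fam a M) := by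
      refine ⟨fun τ hτ hx => ?_, fun τ hτ => ?_, fun τ hτ => ?_⟩
      · have := hM _ hτ
        simp [ind, ev, hx, h1] at this
      · have := hM _ hτ
        by_contra hx
        simp [ind, hx, h1] at this
      · simp only [Fam, Set.mem_ofPred_eq, ind_insert hτ]
        rw [sub_sub, add_comm (ev x)]
    refine hs.up fun j hj => h _ j (by simp [ev, h1]) (by rw [sz_sub, sz_ev]; omega)
  · refine ex_empty (fun τ hτ => ?_) i
    have := hM _ hτ
    simp only [Pi.sub_apply, ind] at this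
    split_ifs at this <;> omega

lemma Rg.restrict {M : Set (σ → ℤ)} {r : ℤ} (h : Rg k M r) (hM : ∀ c ∈ M, 0 ≤ c) (x : σ) :
    Rg k {c | c ∈ M ∧ c x = 0} r := by
  refine rg_of_zero x (fun c hc => hc.2) fun a i ha hi => ?_
  have : Fam a {c | c ∈ M ∧ c x = 0} = Fam a M := by
    ext τ
    simp only [Fam, Set.mem_ofPred_eq]
    refine ⟨fun h => h.1, fun h => ⟨h, ?_⟩⟩
    have := hM _ h x
    simp only [Pi.sub_apply, ind, ha, Pi.zero_apply] at this ⊢
    split_ifs at this ⊢ <;> omega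
  rw [this]
  exact h a i hi

/-- Sets of standard monomials. -/
structure Std (M : Set (σ → ℤ)) : Prop where
  nonneg : ∀ c ∈ M, 0 ≤ c
  down : ∀ a b, 0 ≤ a → a ≤ b → b ∈ M → a ∈ M

lemma rg_colon {M : Set (σ → ℤ)} (hM : Std M) {r : ℤ} (m : σ → ℤ)
    (h1 : Rg k {b | 0 ≤ b ∧ m + b ∈ M} (r - sz m)) (h2 : Rg k {c | c ∈ M ∧ ¬ m ≤ c} r) :
    Rg k M r := by
  have hs : MSES {c | c - m ∈ {b | 0 ≤ b ∧ m + b ∈ M}} M {c | c ∈ M ∧ ¬ m ≤ c} := by
    refine ⟨fun a b c hab hbc ha hc => hM.down _ _ ((hM.nonneg a ha).trans hab) hbc hc,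
      fun a => ?_, fun a ha hb => ?_, fun a b hab ha hb => ?_⟩
    · simp only [Set.mem_ofPred_eq, sub_nonneg, add_sub_cancel]
      tauto
    · simp only [Set.mem_ofPred_eq, sub_nonneg, add_sub_cancel] at ha hb
      exact hb.2 ha.1
    · simp only [Set.mem_ofPred_eq, sub_nonneg, add_sub_cancel] at ha ⊢
      exact ⟨ha.1.trans hab, hb⟩
  refine hs.mid ?_ h2
  have := h1.shift m
  rwa [sub_add_cancel] at this

lemma rg_union {M1 M2 : Set (σ → ℤ)} (hM1 : Std M1) (hM2 : Std M2) {r : ℤ}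
    (h1 : Rg k M1 r) (h2 : Rg k M2 r) (h12 : Rg k (M1 ∩ M2) (r - 1)) : Rg k (M1 ∪ M2) r := by
  have hs : MSES (M2 \ M1) M2 (M1 ∩ M2) := by
    refine ⟨fun a b c hab hbc ha hc => hM2.down _ _ ((hM2.nonneg a ha).trans hab) hbc hc,
      fun a => ?_, fun a ha hb => ha.2 hb.1, fun a b hab ha hb => ?_⟩
    · simp only [Set.mem_sdiff, Set.mem_inter_iff]
      tauto
    · exact ⟨hb, fun h => ha.2 (hM1.down _ _ (hM2.nonneg a ha.1) hab h)⟩
  have hs' : MSES (M2 \ M1) (M1 ∪ M2) M1 := by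
    refine ⟨fun a b c hab hbc ha hc => ?_,
      fun a => ?_, fun a ha hb => ha.2 hb, fun a b hab ha hb => ?_⟩
    · have hb0 : 0 ≤ b := by
        rcases ha with ha | ha
        · exact (hM1.nonneg a ha).trans hab
        · exact (hM2.nonneg a ha).trans hab
      rcases hc with hc | hc
      · exact Or.inl (hM1.down _ _ hb0 hbc hc)
      · exact Or.inr (hM2.down _ _ hb0 hbc hc)
    · simp only [Set.mem_sdiff, Set.mem_union]
      tauto
    · have hb1 : b ∉ M1 := fun h => ha.2 (hM1.down _ _ (hM2.nonneg a ha.1) hab h)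
      exact ⟨hb.resolve_left hb1, hb1⟩
  exact hs'.mid (hs.sub h12 h2) h1

/-- Suspension: adding an isolated edge raises the regularity by one. -/
lemma rg_susp {M1 M2 : Set (σ → ℤ)} (hM2 : Std M2) {r : ℤ} {p q : σ} (hpq : p ≠ q)
    (hp : ∀ c ∈ M1, c p = 0) (hq : ∀ c ∈ M1, c q = 0)
    (h0 : ∀ c, c p = 0 → c q = 0 → (c ∈ M1 ↔ c ∈ M2))
    (h1 : ∀ c, c p = 0 → c q = 0 → (c ∈ M1 ↔ c + ev p ∈ M2))
    (h2 : ∀ c, c p = 0 → c q = 0 → (c ∈ M1 ↔ c + ev q ∈ M2))
    (h3 : ∀ c ∈ M2, c p = 0 ∨ c q = 0) (h : Rg k M2 r) : Rg k M1 (r - 1) := by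
  refine rg_of_zero p hp fun a i hap hi => ?_
  by_cases haq : a q = 0
  swap
  · -- reduce to the case `a q = 0`
    have key : Rg k {c | c ∈ M1} (r - 1) → Ex k (Fam a M1) i := fun hh => hh a i hi
    by_cases haq1 : a q = 1
    · have hs : Shift q (Fam (a - ev q) M1) (Fam a M1) := by
        refine ⟨fun τ hτ hx => ?_, fun τ hτ => ?_, fun τ hτ => ?_⟩
        · have := hq _ hτ
          simp [ind, ev, hx, haq1] at this
        · have := hq _ hτ
          by_contra hx
          simp [ind, hx, haq1] at this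
        · simp only [Fam, Set.mem_ofPred_eq, ind_insert hτ]
          rw [sub_sub, add_comm (ev q)]
      refine hs.up fun j hj => ?_
      exact core (a - ev q) j (by simp [ev, hap, hpq]) (by simp [ev, haq1])
        (by rw [sz_sub, sz_ev]; omega)
    · refine ex_empty (fun τ hτ => ?_) i
      have := hq _ hτ
      simp only [Pi.sub_apply, ind] at this
      split_ifs at this <;> omega
  · exact core a i hap haq hi
where
  core (a : σ → ℤ) (i : ℕ) (hap : a p = 0) (haq : a q = 0) (hi : r - 1 + i < sz a) :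
      Ex k (Fam a M1) i := by
    have hF : Ex k (Fam (a + ev p + ev q) M2) (i + 1) :=
      h _ _ (by rw [sz_add, sz_add, sz_ev, sz_ev]; push_cast; omega)
    have hs : SES {τ | τ ∈ Fam (a + ev p + ev q) M2 ∧ q ∉ τ} (Fam (a + ev p + ev q) M2)
        {τ | τ ∈ Fam (a + ev p + ev q) M2 ∧ q ∈ τ} := by
      refine ⟨fun τ u v h1 h2 => hM2.down _ _ ((hM2.nonneg _ h2).trans
          (sub_le_sub_left (ind_le_insert v _) _)) (sub_le_sub_left (ind_le_insert u _) _) h1,
        fun τ => ?_, fun τ h1 h2 => h1.2 h2.2, fun τ v h1 h2 =>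
          ⟨h1, fun hh => h2.2 (Finset.mem_insert_of_mem hh)⟩⟩
      simp only [Set.mem_ofPred_eq]
      tauto
    have hcone : Ex k {τ | τ ∈ Fam (a + ev p + ev q) M2 ∧ q ∈ τ} (i + 1 + 1) := by
      refine ex_cone p (fun τ hτ => ?_) _
      simp only [Fam, Set.mem_ofPred_eq, ind_insert hτ, Finset.mem_insert, hpq.symm, false_or]
      refine and_congr_left fun hqτ => ?_
      have e1 : a + ev p + ev q - ind τ = (a + ev q - ind τ) + ev p := by abel
      have e2 : a + ev p + ev q - (ind τ + ev p) = a + ev q - ind τ := by abel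
      have z1 : (a + ev q - ind τ) p = 0 := by simp [ev, ind, hap, hτ, hpq]
      have z2 : (a + ev q - ind τ) q = 0 := by simp [ev, ind, haq, hqτ]
      rw [e1, e2, ← h1 _ z1 z2, ← h0 _ z1 z2]
    have hsub := hs.sub hcone hF
    have hsh : Shift p (Fam a M1) {τ | τ ∈ Fam (a + ev p + ev q) M2 ∧ q ∉ τ} := by
      refine ⟨fun τ hτ hx => ?_, fun τ hτ => ?_, fun τ hτ => ?_⟩
      · have := hp _ hτ
        simp [ind, hx, hap] at this
      · by_contra hx
        have := h3 _ hτ.1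
        simp [ind, ev, hx, hτ.2, hap, haq, hpq, hpq.symm] at this
      · simp only [Fam, Set.mem_ofPred_eq, ind_insert hτ, Finset.mem_insert, hpq.symm, false_or]
        have e2 : a + ev p + ev q - (ind τ + ev p) = (a - ind τ) + ev q := by abel
        have z1 : (a - ind τ) p = 0 := by simp [ind, hap, hτ]
        rw [e2]
        constructor
        · intro hh
          have z2 := hq _ hh
          refine ⟨(h2 _ z1 z2).mp hh, fun hqτ => ?_⟩
          simp [ind, hqτ, haq] at z2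
        · rintro ⟨hh, hqτ⟩
          have z2 : (a - ind τ) q = 0 := by simp [ind, haq, hqτ]
          exact (h2 _ z1 z2).mpr hh
    exact hsh.down hsub

end Pool.Agent.Lib.MP_b26ec7_al
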