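import Pool.Agent.Lib.MP_b26ec7_al.Exist

set_option autoImplicit false
set_option linter.unusedSectionVars false

namespace Pool.Agent.Lib.MP_b26ec7_al

open Finset MvPolynomial

universe u

variable {n : ℕ} {k : Type u} [Field k]

lemma tz_add (a b : Fin n →₀ ℕ) : tz (a + b) = tz a + tz b := by
  funext v; simp [tz]

lemma tz_single (v : Fin n) : tz (Finsupp.single v 1) = ev v := by
  funext w
  simp only [tz, ev, Finsupp.single_apply]
  by_cases e : w = v
  · subst e; simp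
  · simp [e, Ne.symm e]

lemma tz_inj {a b : Fin n →₀ ℕ} (h : tz a = tz b) : a = b := by
  rw [← tn_tz a, h, tn_tz]

lemma pow_eq_span (G : SimpleGraph (Fin n)) (q : ℕ) : edgeIdeal k G ^ q =
    Ideal.span ((fun s => monomial s (1 : k)) '' {m | InG G (tz m) ∧ sz (tz m) = 2 * q}) := by
  induction q with
  | zero =>
    rw [pow_zero, Ideal.one_eq_top, eq_comm, Ideal.eq_top_iff_one]
    refine Ideal.subset_span ⟨0, ⟨InG.zero.cast (by funext v; simp [tz]), ?_⟩, rfl⟩
    rw [sz_tz]; simp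
  | succ q ih =>
    rw [pow_succ, ih, edgeIdeal, Ideal.span_mul_span]
    congr 1
    ext p
    simp only [Set.mem_mul, Set.mem_image, Set.mem_ofPred_eq]
    constructor
    · rintro ⟨_, ⟨m, ⟨h1, h2⟩, rfl⟩, _, ⟨i, j, h3, rfl⟩, rfl⟩
      refine ⟨m + Finsupp.single i 1 + Finsupp.single j 1, ⟨?_, ?_⟩, ?_⟩
      · rw [tz_add, tz_add, tz_single, tz_single]
        exact h1.add h3
      · rw [tz_add, tz_add, tz_single, tz_single, sz_add, sz_add, sz_ev, sz_ev, h2]
        push_cast; ring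
      · rw [X, X, monomial_mul, monomial_mul, add_assoc]
        simp
    · rintro ⟨m, ⟨h1, h2⟩, rfl⟩
      obtain ⟨u, hu⟩ := exists_lt_of_sz_lt (a := 0) (b := tz m)
        (by rw [sz_zero, h2]; push_cast; omega)
      obtain ⟨t, h3, h4⟩ := h1.peel hu
      refine ⟨_, ⟨tn (tz m - ev u - ev t), ⟨?_, ?_⟩, rfl⟩, _, ⟨u, t, h3, rfl⟩, ?_⟩
      · rwa [tz_tn h4.nonneg]
      · rw [tz_tn h4.nonneg, sz_sub, sz_sub, sz_ev, sz_ev, h2]
        push_cast; ring
      · rw [X, X, monomial_mul, monomial_mul]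
        simp only [mul_one]
        congr 2
        apply tz_inj
        rw [tz_add, tz_add, tz_single, tz_single, tz_tn h4.nonneg]
        abel

lemma mem_pow (G : SimpleGraph (Fin n)) (q : ℕ) (p : MvPolynomial (Fin n) k) :
    p ∈ edgeIdeal k G ^ q ↔ ∀ m, coeff m p ≠ 0 → tz m ∈ Pw G q := by
  rw [pow_eq_span, mem_ideal_span_monomial_image]
  refine forall_congr' fun m => ?_
  rw [mem_support_iff]
  refine imp_congr_right fun _ => ⟨?_, ?_⟩
  · rintro ⟨s, ⟨h1, h2⟩, h3⟩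
    exact ⟨tz s, h1, h2, fun v => by simpa [tz] using h3 v⟩
  · rintro ⟨g, h1, h2, h3⟩
    refine ⟨tn g, ⟨by rwa [tz_tn h1.nonneg], by rwa [tz_tn h1.nonneg]⟩, fun v => ?_⟩
    have := h3 v
    simp only [tz] at this
    rw [tn_apply]
    omega

section

variable {J : Ideal (MvPolynomial (Fin n) k)} (F : MinRes J)

/-- The augmentation as a matrix. -/
def MinRes.aug : Matrix Unit (Fin (F.rank 0)) (MvPolynomial (Fin n) k) := fun _ b => F.gen b

/-- The ideal as a submodule of a free module of rank one. -/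
noncomputable def idl (J : Ideal (MvPolynomial (Fin n) k)) :
    Submodule (MvPolynomial (Fin n) k) (Unit → MvPolynomial (Fin n) k) :=
  Submodule.comap (LinearMap.proj () : (Unit → MvPolynomial (Fin n) k)
      →ₗ[MvPolynomial (Fin n) k] MvPolynomial (Fin n) k) J

/-- The syzygy modules. -/
noncomputable def MinRes.syz (t : ℕ) :
    Submodule (MvPolynomial (Fin n) k) (Fin (F.rank t) → MvPolynomial (Fin n) k) :=
  LinearMap.range (F.d t).mulVecLin

lemma MinRes.mh_aug : MH (fun _ => 0) (F.deg 0) F.aug :=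
  fun _ b m hm => (isHom_iff _ _).mp (F.gen_homog b) m hm

lemma MinRes.mh_d (t : ℕ) : MH (F.deg t) (F.deg (t + 1)) (F.d t) := by
  intro a b m hm
  rcases F.d_homog t a b with h | ⟨e, h1, h2⟩
  · rw [h] at hm; simp at hm
  · have := (isHom_iff _ _).mp h2 m hm
    omega

lemma MinRes.mem_idl (z : Unit → MvPolynomial (Fin n) k) :
    z ∈ idl J ↔ ∃ f, F.aug.mulVec f = z := by
  refine Iff.trans (b := z () ∈ Ideal.span (Set.range F.gen)) (by rw [F.span_gen]; rfl) ?_
  rw [Ideal.mem_span_range_iff_exists_fun]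
  refine exists_congr fun c => ?_
  have : F.aug.mulVec c () = ∑ i, c i * F.gen i := by
    simp only [Matrix.mulVec, dotProduct, MinRes.aug]
    exact Finset.sum_congr rfl fun b _ => mul_comm _ _
  rw [← this]
  exact ⟨fun h => funext fun _ => h, fun h => congrFun h ()⟩

lemma MinRes.mem_syz (t : ℕ) (z : Fin (F.rank t) → MvPolynomial (Fin n) k) :
    z ∈ F.syz t ↔ ∃ f, (F.d t).mulVec f = z := Iff.rfl

lemma MinRes.mem_syz_zero (z : Fin (F.rank 0) → MvPolynomial (Fin n) k) :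
    z ∈ F.syz 0 ↔ F.aug.mulVec z = 0 := by
  refine Iff.trans (F.exact_zero z).symm ?_
  exact ⟨fun h => funext fun _ => h, fun h => congrFun h ()⟩

lemma MinRes.mem_syz_succ (t : ℕ) (z : Fin (F.rank (t + 1)) → MvPolynomial (Fin n) k) :
    z ∈ F.syz (t + 1) ↔ (F.d t).mulVec z = 0 := (F.exact_succ t z).symm

lemma MinRes.syz_min (t : ℕ) : ∀ f ∈ F.syz t, ∀ b, coeff 0 (f b) = 0 := by
  rintro _ ⟨g, rfl⟩ b
  show constantCoeff ((F.d t).mulVec g b) = 0
  simp [Matrix.mulVec, dotProduct, F.minimal]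

theorem MinRes.kv_of_deg {ρ : ℤ} (h : ∀ t b, (F.deg t b : ℤ) ≤ ρ + t) (i : ℕ) (j : ℤ)
    (hj : ρ + i < j) : KV (idl J) (fun _ => 0) i j := by
  have key : ∀ (i t : ℕ) (j : ℤ), ρ + (t + 1) + i < j → KV (F.syz t) (F.deg t) i j := by
    intro i
    induction i with
    | zero =>
      intro t j hj
      refine step_zero (F.mh_d t) (F.mem_syz t) fun b => ?_
      have := h (t + 1) b
      push_cast at this hj
      omega
    | succ i ih =>
      intro t j hj
      exact step_up (F.mh_d t) (F.mem_syz t) (F.mem_syz_succ t)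
        (ih (t + 1) j (by push_cast at hj ⊢; omega))
  rcases i with _ | i
  · refine step_zero F.mh_aug F.mem_idl fun b => ?_
    have := h 0 b
    push_cast at this hj
    omega
  · exact step_up F.mh_aug F.mem_idl F.mem_syz_zero (key i 0 j (by push_cast at hj ⊢; omega))

theorem MinRes.deg_of_kv {ρ : ℤ} (h : ∀ (i : ℕ) (j : ℤ), ρ + i < j → KV (idl J) (fun _ => 0) i j)
    (t : ℕ) (b : Fin (F.rank t)) : (F.deg t b : ℤ) ≤ ρ + t := by
  have key : ∀ (t i : ℕ) (j : ℤ), ρ + (t + 1) + i < j → KV (F.syz t) (F.deg t) i j := by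
    intro t
    induction t with
    | zero =>
      intro i j hj
      exact step_down F.mh_aug F.mem_idl F.mem_syz_zero (F.syz_min 0)
        (h (i + 1) j (by push_cast at hj ⊢; omega))
    | succ t ih =>
      intro i j hj
      exact step_down (F.mh_d t) (F.mem_syz t) (F.mem_syz_succ t) (F.syz_min (t + 1))
        (ih (i + 1) j (by push_cast at hj ⊢; omega))
  by_contra hlt
  rcases t with _ | t
  · exact step_gen F.mh_aug F.mem_idl
      (fun f hf => F.syz_min 0 f ((F.mem_syz_zero f).mpr hf)) b (h 0 _ (by omega))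
  · exact step_gen (F.mh_d t) (F.mem_syz t)
      (fun f hf => F.syz_min (t + 1) f ((F.mem_syz_succ t f).mpr hf)) b
      (key t 0 _ (by push_cast at hlt ⊢; omega))

end

lemma Pw_nonneg {G : SimpleGraph (Fin n)} {q : ℕ} : ∀ a ∈ Pw G q, 0 ≤ a :=
  fun _ ⟨_, h1, _, h3⟩ => h1.nonneg.trans h3

theorem rg_of_res {G : SimpleGraph (Fin n)} {q : ℕ} {J : Ideal (MvPolynomial (Fin n) k)}
    (hJ : J = edgeIdeal k G ^ q) (F : MinRes J) {ρ : ℤ}
    (h : ∀ t b, (F.deg t b : ℤ) ≤ ρ + t) : Rg k (Pw G q) ρ := by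
  intro a i hi
  refine ex_of_kv1 (fun _ _ => Pw_up) Pw_nonneg ?_
  exact (kv_iff_kv1 (J := J) (hJ ▸ mem_pow G q) (fun _ => Iff.rfl) i _).mp
    (F.kv_of_deg h i _ hi)

theorem res_of_rg {G : SimpleGraph (Fin n)} {q : ℕ} {J : Ideal (MvPolynomial (Fin n) k)}
    (hJ : J = edgeIdeal k G ^ q) (F : MinRes J) {ρ : ℤ} (h : Rg k (Pw G q) ρ) :
    ∀ t b, (F.deg t b : ℤ) ≤ ρ + t := by
  refine F.deg_of_kv fun i j hj => ?_
  refine (kv_iff_kv1 (J := J) (hJ ▸ mem_pow G q) (fun _ => Iff.rfl) i _).mpr ?_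
  exact kv1_of_ex (fun _ _ => Pw_up) Pw_nonneg fun a ha => h a i (by omega)

theorem main (G : SimpleGraph (Fin n)) (hG : G ≠ ⊥) (q : ℕ) (hq : 1 ≤ q) :
    reg (edgeIdeal k G ^ q) ≤ 2 * q + reg (edgeIdeal k G) - 2 := by
  obtain ⟨u, v, huv⟩ : ∃ u v, G.Adj u v := by
    by_contra hn
    push Not at hn
    exact hG (by ext a b; simp [hn a b])
  have h1 : edgeIdeal k G = edgeIdeal k G ^ 1 := (pow_one _).symm
  obtain ⟨F⟩ := exists_minRes (edgeIdeal k G) (Pw G 1) (h1 ▸ mem_pow G 1)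
  have hbdd : BddAbove {r : ℤ | ∃ (F : MinRes (edgeIdeal k G)) (i : ℕ) (b : Fin (F.rank i)),
      r = (F.deg i b : ℤ) - i} := by
    refine ⟨Fintype.card (Fin n), ?_⟩
    rintro r ⟨F', i, b, rfl⟩
    have := res_of_rg h1 F' rg_card i b
    omega
  have hF : Rg k (Pw G 1) (reg (edgeIdeal k G)) := rg_of_res h1 F fun t b => by
    have : (F.deg t b : ℤ) - t ≤ reg (edgeIdeal k G) := le_csSup hbdd ⟨F, t, b, rfl⟩
    omega
  obtain ⟨s, rfl⟩ : ∃ s, q = s + 1 := ⟨q - 1, by omega⟩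
  have hP := power_reg hF huv s
  have h2 := two_le_of_rg hF huv
  by_cases hne : {r : ℤ | ∃ (F : MinRes (edgeIdeal k G ^ (s + 1))) (i : ℕ) (b : Fin (F.rank i)),
      r = (F.deg i b : ℤ) - i}.Nonempty
  · refine csSup_le hne ?_
    rintro r ⟨F', i, b, rfl⟩
    have := res_of_rg rfl F' hP i b
    push_cast
    omega
  · rw [Set.not_nonempty_iff_eq_empty] at hne
    unfold reg at h2 ⊢
    rw [hne, Int.csSup_empty]
    push_cast
    omega

end Pool.Agent.Lib.MP_b26ec7_al
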