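import Pool.Agent.Lib.MP_b26ec7_al.Match

set_option autoImplicit false
set_option linter.unusedSectionVars false

namespace Pool.Agent.Lib.MP_b26ec7_al

open Finset

universe u

variable {σ : Type} [LinearOrder σ] {G : SimpleGraph σ}

/-- Standard monomials of the colon ideal, with the variables outside `W` killed. -/
def St (G : SimpleGraph σ) (W : Finset σ) (a : σ → ℤ) : Set (σ → ℤ) :=
  {b | 0 ≤ b ∧ (∀ v, 0 < b v → v ∈ W) ∧ ∀ u v, ev u + ev v ≤ b → ¬ InG G (a + ev u + ev v)}

lemma std_St (W : Finset σ) (a : σ → ℤ) : Std (St G W a) :=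
  ⟨fun _ hc => hc.1, fun _ _ h0 hab hb => ⟨h0, fun v hv => hb.2.1 v (lt_of_lt_of_le hv (hab v)),
    fun u v h => hb.2.2 u v (h.trans hab)⟩⟩

lemma pair_le {b : σ → ℤ} (hb : 0 ≤ b) {u v : σ} (huv : u ≠ v) (hu : 0 < b u) (hv : 0 < b v) :
    ev u + ev v ≤ b := by
  intro w
  have := hb w
  simp only [Pi.add_apply, Pi.zero_apply] at this ⊢
  by_cases h1 : w = u
  · subst h1; rw [ev_self, ev_ne huv]; omega
  · by_cases h2 : w = v
    · subst h2; rw [ev_self, ev_ne h1]; omega
    · rw [ev_ne h1, ev_ne h2]; omega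

lemma pos_left {b : σ → ℤ} {u v : σ} (h : ev u + ev v ≤ b) : 0 < b u := by
  have h1 := h u
  have h2 := ev_ge v u
  simp only [Pi.add_apply, ev_self] at h1
  omega

lemma pos_right {b : σ → ℤ} {u v : σ} (h : ev u + ev v ≤ b) : 0 < b v :=
  pos_left (by rwa [add_comm] at h)

lemma ev_le {b : σ → ℤ} (hb : 0 ≤ b) {u : σ} : ev u ≤ b ↔ 0 < b u := by
  constructor
  · intro h
    have h1 : ev u u ≤ b u := h u
    rw [ev_self] at h1
    omega
  · intro h w
    show ev u w ≤ b w
    by_cases h1 : w = u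
    · subst h1; rw [ev_self]; omega
    · rw [ev_ne h1]; exact hb w

lemma inG_two {u v : σ} : InG G (0 + ev u + ev v) ↔ G.Adj u v := by
  refine ⟨fun h => ?_, fun h => InG.zero.add h⟩
  rcases two_tokens InG.zero h with h1 | ⟨y, z, _, _, h1⟩
  · exact h1
  · have h2 := h1.nonneg y
    have h3 := ev_ge z y
    simp only [Pi.sub_apply, Pi.zero_apply, ev_self] at h2
    omega

lemma rs_le {C : Set σ} {a : σ → ℤ} (ha : 0 ≤ a) : rs C a ≤ a := by
  intro v
  simp only [rs]
  split_ifs
  · exact le_rfl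
  · exact ha v

lemma rs_pos {C : Set σ} {a : σ → ℤ} {v : σ} (h : 0 < rs C a v) : v ∈ C ∧ 0 < a v := by
  simp only [rs] at h
  split_ifs at h with h1
  · exact ⟨h1, h⟩
  · exact absurd h (lt_irrefl _)

variable [Fintype σ]

variable (k : Type u) [Field k]

/-- All induced subgraphs on subsets of `Y` have regularity at most `r`. -/
def Ler (G : SimpleGraph σ) (Y : Set σ) (r : ℤ) : Prop :=
  ∀ W : Finset σ, (∀ w ∈ W, w ∈ Y) → Rg k (St G W 0) r

variable {k}

lemma susp_aux {W : Finset σ} {p q : σ} (hpq : p ≠ q)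
    (hW : ∀ w ∈ W, ¬ G.Adj w p) (c : σ → ℤ) (hp : c p = 0) (hq : c q = 0) (W' : Finset σ)
    (hW' : ∀ w, w ∈ W' ↔ w = p ∨ w = q ∨ w ∈ W) :
    c ∈ St G W 0 ↔ c + ev p ∈ St G W' 0 := by
  constructor
  · rintro ⟨h1, h2, h3⟩
    refine ⟨add_nonneg h1 (ev_nonneg p), fun v hv => ?_, fun u v huv hin => ?_⟩
    · rw [hW']
      by_cases e : v = p
      · exact Or.inl e
      · simp only [Pi.add_apply, ev_ne e, add_zero] at hv
        exact Or.inr (Or.inr (h2 v hv))
    · have hadj := inG_two.mp hin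
      have hu := pos_left huv
      have hv := pos_right huv
      by_cases e1 : u = p
      · subst e1
        simp only [Pi.add_apply, ev_ne hadj.ne', add_zero] at hv
        exact hW v (h2 v hv) hadj.symm
      by_cases e2 : v = p
      · subst e2
        simp only [Pi.add_apply, ev_ne hadj.ne, add_zero] at hu
        exact hW u (h2 u hu) hadj
      · simp only [Pi.add_apply, ev_ne e1, ev_ne e2, add_zero] at hu hv
        exact h3 u v (pair_le h1 hadj.ne hu hv) hin
  · rintro ⟨h1, h2, h3⟩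
    have h0 : 0 ≤ c := by
      intro w
      by_cases e : w = p
      · subst e; simp [hp]
      · have := h1 w
        simpa [ev_ne e] using this
    refine ⟨h0, fun v hv => ?_, fun u v huv => h3 u v (huv.trans (le_add_of_nonneg_right
      (ev_nonneg p)))⟩
    have h4 := ev_ge p v
    rcases (hW' v).mp (h2 v (by simp only [Pi.add_apply]; omega)) with e | e | e
    · subst e; omega
    · subst e; omega
    · exact e

lemma Ler.susp {Y Y1 : Set σ} {r : ℤ} (h : Ler k G Y r) {p q : σ} (hp : p ∈ Y) (hq : q ∈ Y)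
    (hpq : G.Adj p q) (hY : ∀ w ∈ Y1, w ∈ Y ∧ ¬ G.Adj w p ∧ ¬ G.Adj w q) :
    Ler k G Y1 (r - 1) := by
  intro W hW
  have hpW : p ∉ W := fun hh => (hY p (hW p hh)).2.2 hpq
  have hqW : q ∉ W := fun hh => (hY q (hW q hh)).2.1 hpq.symm
  have hz : ∀ x, x ∉ W → ∀ c ∈ St G W 0, c x = 0 := fun x hx c hc => by
    have h1 := hc.1 x
    have h2 : ¬ 0 < c x := fun hh => hx (hc.2.1 x hh)
    simp only [Pi.zero_apply] at h1
    omega
  refine rg_susp (std_St (insert p (insert q W)) 0) hpq.ne (hz p hpW) (hz q hqW)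
    (fun c h1 h2 => ?_) (fun c h1 h2 => ?_) (fun c h1 h2 => ?_) (fun c hc => ?_)
    (h _ fun w hw => ?_)
  · refine ⟨fun hc => ⟨hc.1, fun v hv => ?_, hc.2.2⟩, fun hc => ⟨hc.1, fun v hv => ?_, hc.2.2⟩⟩
    · simp [hc.2.1 v hv]
    · have := hc.2.1 v hv
      simp only [Finset.mem_insert] at this
      rcases this with e | e | e
      · subst e; omega
      · subst e; omega
      · exact e
  · exact susp_aux hpq.ne (fun w hw => (hY w (hW w hw)).2.1) c h1 h2 _ (by simp)
  · exact susp_aux hpq.ne' (fun w hw => (hY w (hW w hw)).2.2) c h2 h1 _ (by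
      intro w; simp only [Finset.mem_insert]; tauto)
  · by_contra hn
    push Not at hn
    have h1 := hc.1 p
    have h2 := hc.1 q
    simp only [Pi.zero_apply] at h1 h2
    exact hc.2.2 p q (pair_le hc.1 hpq.ne (by omega) (by omega)) (inG_two.mpr hpq)
  · simp only [Finset.mem_insert] at hw
    rcases hw with e | e | e
    · exact e ▸ hp
    · exact e ▸ hq
    · exact (hY w (hW w e)).1

omit [Fintype σ] in
lemma mem_ND_iff {a : σ → ℤ} (ha : InG G a) (x u : σ) :
    u ∈ ND G (a + ev x) ↔ InG G (a + ev x + ev u) := by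
  constructor
  · rintro ⟨d, h1, h2⟩
    exact (h2.add h1).cast (by abel)
  · intro h
    obtain ⟨d, h1, h2⟩ := h.peel (u := u) (by
      have h1 := ha.nonneg u
      have h2 := ev_ge x u
      simp only [Pi.add_apply, Pi.zero_apply, ev_self] at *
      omega)
    exact ⟨d, h1, h2.cast (by abel)⟩

lemma exists_good {a : σ → ℤ} (ha : InG G a) (hne : a ≠ 0) (T : σ → Prop)
    (hno : ∀ p p', G.Adj p p' → InG G (a - ev p - ev p') → ∃ y z, T y ∧ T z ∧
      InG G (a - ev y - ev z) ∧ ¬ InG G (a - ev p - ev p' - ev y - ev z)) :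
    ∃ x, T x ∧ 0 < a x ∧ ((∃ p q, G.Adj p q ∧ InG G (a - ev x - ev p) ∧ InG G (a - ev x - ev q)) ∨
      ∀ c ∈ CS G (a - ev x), 0 < a c → ¬ G.Adj c x) := by
  classical
  by_contra hcon
  push Not at hcon
  have hpos : ∀ y z, InG G (a - ev y - ev z) → 0 < a y := fun y z h => by
    have h1 := h.nonneg y
    have h2 := ev_ge z y
    simp only [Pi.sub_apply, Pi.zero_apply, ev_self] at h1
    omega
  have hne' : (univ.filter (fun x => T x ∧ 0 < a x)).Nonempty := by
    obtain ⟨u, hu⟩ : ∃ u, 0 < a u := by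
      by_contra hn
      push Not at hn
      exact hne (le_antisymm hn ha.nonneg)
    obtain ⟨t, h1, h2⟩ := ha.peel hu
    obtain ⟨y, z, hy, _, h3, _⟩ := hno u t h1 h2
    exact ⟨y, by simp [hy, hpos y z h3]⟩
  obtain ⟨x, hx, hmax⟩ := Finset.exists_max_image _
    (fun x => (univ.filter (fun d => InG G (a - ev x - ev d))).card) hne'
  simp only [Finset.mem_filter, Finset.mem_univ, true_and] at hx hmax
  obtain ⟨_, c, hcC, hc0, hcx⟩ := hcon x hx.1 hx.2
  obtain ⟨c', hcc, h1⟩ := ha.peel hc0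
  obtain ⟨y, z, hy, hz, h2, h3⟩ := hno c c' hcc h1
  have hv : ∃ v, T v ∧ InG G (a - ev v - ev c) := by
    by_cases e1 : c' = y
    · exact ⟨y, hy, h1.cast (by rw [e1]; abel)⟩
    by_cases e2 : c' = z
    · exact ⟨z, hz, h1.cast (by rw [e2]; abel)⟩
    obtain ⟨v, ⟨_, f2, f3⟩ | ⟨f1, _, f3⟩⟩ := exchange c' h1 h2 (by
      simp only [Pi.sub_apply, ev_self, ev_ne e1, ev_ne e2, ev_ne hcc.ne']; omega)
    · have g1 := ev_ge y v
      have g2 := ev_ge z v
      have : v = c := eq_of_ev_pos (by simp only [Pi.sub_apply] at f3; omega)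
      subst this
      exact absurd (f2.cast (by abel)) h3
    · have g1 := ev_ge c v
      have g2 := ev_ge c' v
      simp only [Pi.sub_apply] at f3
      by_cases g3 : 0 < ev y v
      · rw [eq_of_ev_pos g3] at f1
        exact ⟨y, hy, f1.cast (by abel)⟩
      · have : v = z := eq_of_ev_pos (by omega)
        rw [this] at f1
        exact ⟨z, hz, f1.cast (by abel)⟩
  obtain ⟨v, hvT, hvc⟩ := hv
  have hv0 := hpos v c hvc
  have hxv : ¬ InG G (a - ev v - ev x) := fun hh => (hcon v hvT hv0).1 c x hcx hvc hh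
  have hsub : univ.filter (fun d => InG G (a - ev x - ev d)) ⊂
      univ.filter (fun d => InG G (a - ev v - ev d)) := by
    rw [Finset.ssubset_iff_of_subset]
    · exact ⟨c, by simp [hvc], by simp [hcC.1]⟩
    · intro d hd
      simp only [Finset.mem_filter, Finset.mem_univ, true_and] at hd ⊢
      exact (ge_sub ha v).key (S := 0) le_rfl (fun s hs => absurd hs (lt_irrefl _)) hxv hcx.symm
        hvc (hd.cast (by abel))
  exact absurd (hmax v ⟨hvT, hv0⟩) (not_le.mpr (Finset.card_lt_card hsub))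

theorem colon_reg_aux (n : ℕ) : ∀ (W : Finset σ) (a : σ → ℤ) (r : ℤ) (Y : Set σ),
    W.card + sz a ≤ n → InG G a → (∀ w ∈ W, w ∈ Y) → (∀ v, 0 < a v → v ∈ Y) → Ler k G Y r →
    Rg k (St G W a) r := by
  classical
  induction n using Nat.strong_induction_on with
  | _ n ih =>
  intro W a r Y hn ha hW haY hL
  have a0 := ha.nonneg
  have hsz := sz_nonneg a0
  by_cases hz : a = 0
  · subst hz; exact hL W hW
  by_cases hloop : ∃ x ∈ W, InG G (a + ev x + ev x)
  · -- a variable whose square lies in the colon ideal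
    obtain ⟨x, hxW, hx⟩ := hloop
    have hge := ge_add ha x
    have hcard := Finset.card_pos.mpr ⟨x, hxW⟩
    refine rg_colon (std_St W a) (ev x) ?_ ?_
    · have e : {b | 0 ≤ b ∧ ev x + b ∈ St G W a}
          = St G (W.filter (· ∉ ND G (a + ev x))) (rs (CS G (a + ev x)) a) := by
        ext b
        constructor
        · rintro ⟨hb, _, h2, h3⟩
          have hN : ∀ u, 0 < b u → u ∉ ND G (a + ev x) := fun u hu hN =>
            h3 x u (add_le_add le_rfl ((ev_le hb).mpr hu)) ((mem_ND_iff ha x u).mp hN)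
          refine ⟨hb, fun v hv => Finset.mem_filter.mpr ⟨h2 v ?_, hN v hv⟩, fun u v huv hin => ?_⟩
          · have := ev_ge x v
            simp only [Pi.add_apply]; omega
          · exact h3 u v (huv.trans (le_add_of_nonneg_left (ev_nonneg x)))
              ((hge.star2 ha (hN u (pos_left huv)) (hN v (pos_right huv))).mpr hin)
        · rintro ⟨hb, h2, h3⟩
          have hN : ∀ u, 0 < b u → u ∉ ND G (a + ev x) := fun u hu =>
            (Finset.mem_filter.mp (h2 u hu)).2
          refine ⟨hb, add_nonneg (ev_nonneg x) hb, fun v hv => ?_, fun u v huv hin => ?_⟩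
          · by_cases e : v = x
            · exact e ▸ hxW
            · simp only [Pi.add_apply, ev_ne e, zero_add] at hv
              exact (Finset.mem_filter.mp (h2 v hv)).1
          · by_cases e1 : u = x
            · subst e1
              exact hN v ((ev_le hb).mp (le_of_add_le_add_left huv)) ((mem_ND_iff ha u v).mpr hin)
            by_cases e2 : v = x
            · subst e2
              rw [add_comm] at huv
              exact hN u ((ev_le hb).mp (le_of_add_le_add_left huv))
                ((mem_ND_iff ha v u).mpr (hin.cast (by abel)))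
            · have huv' : ev u + ev v ≤ b := by
                intro w
                have h4 := huv w
                simp only [Pi.add_apply] at h4 ⊢
                by_cases e3 : w = x
                · subst e3
                  rw [ev_ne (Ne.symm e1), ev_ne (Ne.symm e2)]
                  exact hb w
                · rwa [ev_ne e3, zero_add] at h4
              exact h3 u v huv'
                ((hge.star2 ha (hN u (pos_left huv')) (hN v (pos_right huv'))).mp hin)
      rw [e, sz_ev]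
      obtain ⟨y, hxy, hy0, hyD⟩ : ∃ y, G.Adj x y ∧ 0 < a y ∧ InG G (a + ev x - ev y) := by
        rcases two_tokens ha hx with h1 | ⟨y, z, hy, hz, h1⟩
        · exact absurd h1 (G.loopless.irrefl x)
        · refine ⟨y, hy, ?_, (h1.add hz).cast (by abel)⟩
          have h2 := h1.nonneg y
          have h3 := ev_ge z y
          simp only [Pi.sub_apply, Pi.zero_apply, ev_self] at h2
          omega
      have hlt : (W.filter (· ∉ ND G (a + ev x))).card < W.card :=
        Finset.card_lt_card (Finset.filter_ssubset.mpr ⟨x, hxW, fun hh => hh ⟨y, hxy, hyD⟩⟩)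
      have hle := sz_mono (rs_le (C := CS G (a + ev x)) a0)
      refine ih (n - 1) (by omega) _ _ _ {w | w ∈ Y ∧ w ∉ ND G (a + ev x)} (by omega)
        (hge.star1 ha).1 (fun w hw => ?_) (fun v hv => ?_)
        (hL.susp (hW x hxW) (haY y hy0) hxy fun w hw => ⟨hw.1, fun hh => hw.2 ⟨x, hh, ?_⟩,
          fun hh => hw.2 ⟨y, hh, hyD⟩⟩)
      · exact ⟨hW w (Finset.mem_filter.mp hw).1, (Finset.mem_filter.mp hw).2⟩
      · exact ⟨haY v (rs_pos hv).2, (rs_pos hv).1.2⟩
      · exact ha.cast (by abel)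
    · have e : {c | c ∈ St G W a ∧ ¬ ev x ≤ c} = St G (W.erase x) a := by
        ext c
        constructor
        · rintro ⟨⟨h1, h2, h3⟩, h4⟩
          refine ⟨h1, fun v hv => Finset.mem_erase.mpr ⟨fun e => h4 ?_, h2 v hv⟩, h3⟩
          exact (ev_le h1).mpr (e ▸ hv)
        · rintro ⟨h1, h2, h3⟩
          exact ⟨⟨h1, fun v hv => Finset.mem_of_mem_erase (h2 v hv), h3⟩,
            fun h4 => Finset.notMem_erase x W (h2 x ((ev_le h1).mp h4))⟩
      rw [e]
      refine ih (n - 1) (by omega) _ _ _ Y ?_ ha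
        (fun w hw => hW w (Finset.mem_of_mem_erase hw)) haY hL
      rw [Finset.card_erase_of_mem hxW]
      omega
  push Not at hloop
  by_cases hrem : ∃ p p', G.Adj p p' ∧ InG G (a - ev p - ev p') ∧ ∀ y z, (∃ w ∈ W, G.Adj w y) →
      (∃ w ∈ W, G.Adj w z) → InG G (a - ev y - ev z) → InG G (a - ev p - ev p' - ev y - ev z)
  · obtain ⟨p, p', hpp, h1, h2⟩ := hrem
    have e : St G W a = St G W (a - ev p - ev p') := by
      ext b
      constructor
      · rintro ⟨hb, h3, h4⟩
        exact ⟨hb, h3, fun u v huv hin => h4 u v huv ((hin.add hpp).cast (by abel))⟩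
      · rintro ⟨hb, h3, h4⟩
        refine ⟨hb, h3, fun u v huv hin => h4 u v huv ?_⟩
        rcases two_tokens ha hin with h5 | ⟨y, z, hy, hz, h5⟩
        · exact h1.add h5
        · exact (((h2 y z ⟨u, h3 u (pos_left huv), hy⟩ ⟨v, h3 v (pos_right huv), hz⟩ h5).add
            hy).add hz).cast (by abel)
    rw [e]
    have hsz1 := sz_nonneg h1.nonneg
    rw [sz_sub, sz_sub, sz_ev, sz_ev] at hsz1
    refine ih (n - 1) (by omega) _ _ _ Y (by rw [sz_sub, sz_sub, sz_ev, sz_ev]; omega) h1 hW
      (fun v hv => haY v ?_) hL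
    have g1 := ev_ge p v
    have g2 := ev_ge p' v
    simp only [Pi.sub_apply] at hv
    omega
  push Not at hrem
  obtain ⟨x, ⟨w0, hw0, hw0x⟩, hx0, hgood⟩ := exists_good ha hz (fun y => ∃ w ∈ W, G.Adj w y)
    (fun p p' h1 h2 => by
      obtain ⟨y, z, h3, h4, h5, h6⟩ := hrem p p' h1 h2
      exact ⟨y, z, h3, h4, h5, h6⟩)
  have hge := ge_sub ha x
  obtain ⟨d0, hxd0, hd0⟩ := ha.peel hx0
  have hDpos : ∀ d, InG G (a - ev x - ev d) → 0 < a d := fun d h => by
    have h1 := h.nonneg d
    have h2 := ev_ge x d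
    simp only [Pi.sub_apply, Pi.zero_apply, ev_self] at h1
    omega
  have hszlt : sz (rs (CS G (a - ev x)) a) < sz a := by
    refine Finset.sum_lt_sum (fun v _ => rs_le a0 v) ⟨x, Finset.mem_univ _, ?_⟩
    have : x ∉ CS G (a - ev x) := fun hh => hh.2 ⟨d0, hxd0, hd0⟩
    simp only [rs, if_neg this]
    exact hx0
  have hsz2 := sz_nonneg (hge.star1 ha).1.nonneg
  have eU : St G W a = St G (W.filter (fun w => ¬ G.Adj w x)) a ∪
      St G (W.filter (· ∉ ND G (a - ev x))) (rs (CS G (a - ev x)) a) := by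
    ext b
    constructor
    · rintro ⟨hb, h2, h3⟩
      by_cases hw : ∃ w, 0 < b w ∧ G.Adj w x
      · obtain ⟨w, hw1, hw2⟩ := hw
        have hN : ∀ u, 0 < b u → u ∉ ND G (a - ev x) := by
          rintro u hu ⟨d, hd1, hd2⟩
          have h4 : InG G (a + ev w + ev u) := ((hd2.add hd1).add hw2).cast (by abel)
          by_cases e : w = u
          · subst e
            exact hloop w (h2 w hu) h4
          · exact h3 w u (pair_le hb e hw1 hu) h4
        exact Or.inr ⟨hb, fun v hv => Finset.mem_filter.mpr ⟨h2 v hv, hN v hv⟩,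
          fun u v huv hin => h3 u v huv
            ((hge.star2 ha (hN u (pos_left huv)) (hN v (pos_right huv))).mpr hin)⟩
      · push Not at hw
        exact Or.inl ⟨hb, fun v hv => Finset.mem_filter.mpr ⟨h2 v hv, hw v hv⟩, h3⟩
    · rintro (⟨hb, h2, h3⟩ | ⟨hb, h2, h3⟩)
      · exact ⟨hb, fun v hv => (Finset.mem_filter.mp (h2 v hv)).1, h3⟩
      · exact ⟨hb, fun v hv => (Finset.mem_filter.mp (h2 v hv)).1, fun u v huv hin => h3 u v huv
          ((hge.star2 ha (Finset.mem_filter.mp (h2 u (pos_left huv))).2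
            (Finset.mem_filter.mp (h2 v (pos_right huv))).2).mp hin)⟩
  have eI : St G (W.filter (fun w => ¬ G.Adj w x)) a ∩
      St G (W.filter (· ∉ ND G (a - ev x))) (rs (CS G (a - ev x)) a)
      = St G (W.filter (fun w => ¬ G.Adj w x ∧ w ∉ ND G (a - ev x))) (rs (CS G (a - ev x)) a) := by
    ext b
    constructor
    · rintro ⟨⟨hb, h2, _⟩, ⟨_, h4, h5⟩⟩
      exact ⟨hb, fun v hv => Finset.mem_filter.mpr ⟨(Finset.mem_filter.mp (h2 v hv)).1,
        (Finset.mem_filter.mp (h2 v hv)).2, (Finset.mem_filter.mp (h4 v hv)).2⟩, h5⟩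
    · rintro ⟨hb, h2, h3⟩
      refine ⟨⟨hb, fun v hv => Finset.mem_filter.mpr ⟨(Finset.mem_filter.mp (h2 v hv)).1,
        (Finset.mem_filter.mp (h2 v hv)).2.1⟩, fun u v huv hin => h3 u v huv ?_⟩,
        ⟨hb, fun v hv => Finset.mem_filter.mpr ⟨(Finset.mem_filter.mp (h2 v hv)).1,
        (Finset.mem_filter.mp (h2 v hv)).2.2⟩, h3⟩⟩
      exact (hge.star2 ha (Finset.mem_filter.mp (h2 u (pos_left huv))).2.2
            (Finset.mem_filter.mp (h2 v (pos_right huv))).2.2).mp hin
  rw [eU]
  have hlt : (W.filter (fun w => ¬ G.Adj w x)).card < W.card :=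
    Finset.card_lt_card (Finset.filter_ssubset.mpr ⟨w0, hw0, fun hh => hh hw0x⟩)
  have hle1 := Finset.card_filter_le W (· ∉ ND G (a - ev x))
  have hle2 := Finset.card_filter_le W (fun w => ¬ G.Adj w x ∧ w ∉ ND G (a - ev x))
  refine rg_union (std_St _ _) (std_St _ _) ?_ ?_ ?_
  · exact ih (n - 1) (by omega) _ _ _ Y (by omega) ha
      (fun w hw => hW w (Finset.mem_filter.mp hw).1) haY hL
  · exact ih (n - 1) (by omega) _ _ _ Y (by omega) (hge.star1 ha).1
      (fun w hw => hW w (Finset.mem_filter.mp hw).1) (fun v hv => haY v (rs_pos hv).2) hL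
  · rw [eI]
    refine ih (n - 1) (by omega) _ _ _
      {w | (w ∈ W ∧ ¬ G.Adj w x ∧ w ∉ ND G (a - ev x)) ∨ (w ∈ CS G (a - ev x) ∧ 0 < a w)}
      (by omega) (hge.star1 ha).1 (fun w hw => Or.inl (Finset.mem_filter.mp hw))
      (fun v hv => Or.inr (rs_pos hv)) ?_
    have hYN : ∀ w, (w ∈ W ∧ ¬ G.Adj w x ∧ w ∉ ND G (a - ev x)) ∨
        (w ∈ CS G (a - ev x) ∧ 0 < a w) → w ∈ Y ∧ w ∉ ND G (a - ev x) := by
      rintro w (hw | hw)
      · exact ⟨hW w hw.1, hw.2.2⟩
      · exact ⟨haY w hw.2, hw.1.2⟩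
    rcases hgood with ⟨p, q, hpq, hp, hq⟩ | hgood
    · exact hL.susp (haY p (hDpos p hp)) (haY q (hDpos q hq)) hpq fun w hw =>
        ⟨(hYN w hw).1, fun hh => (hYN w hw).2 ⟨p, hh, hp⟩, fun hh => (hYN w hw).2 ⟨q, hh, hq⟩⟩
    · refine hL.susp (haY x hx0) (haY d0 (hDpos d0 hd0)) hxd0 fun w hw =>
        ⟨(hYN w hw).1, ?_, fun hh => (hYN w hw).2 ⟨d0, hh, hd0⟩⟩
      rcases hw with hw | hw
      · exact hw.2.1
      · exact hgood w hw.1 hw.2

theorem ler_univ {r : ℤ} (h : Rg k (St G univ 0) r) : Ler k G Set.univ r := by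
  have key : ∀ Z : Finset σ, Rg k (St G (univ \ Z) 0) r := by
    intro Z
    induction Z using Finset.induction_on with
    | empty => simpa using h
    | insert x Z _ ih =>
      have h1 := ih.restrict (fun c hc => hc.1) x
      have e : {c | c ∈ St G (univ \ Z) 0 ∧ c x = 0} = St G (univ \ insert x Z) 0 := by
        ext c
        constructor
        · rintro ⟨⟨h1, h2, h3⟩, h4⟩
          refine ⟨h1, fun v hv => ?_, h3⟩
          have := h2 v hv
          simp only [Finset.mem_sdiff, Finset.mem_univ, true_and, Finset.mem_insert, not_or]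
            at this ⊢
          exact ⟨fun e => by subst e; omega, this⟩
        · rintro ⟨h1, h2, h3⟩
          refine ⟨⟨h1, fun v hv => ?_, h3⟩, ?_⟩
          · have := h2 v hv
            simp only [Finset.mem_sdiff, Finset.mem_univ, true_and, Finset.mem_insert, not_or]
              at this ⊢
            exact this.2
          · have h4 := h1 x
            have h5 : ¬ 0 < c x := fun hh => by simpa using h2 x hh
            simp only [Pi.zero_apply] at h4
            omega
      rwa [e] at h1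
  intro W _
  have := key (univ \ W)
  rwa [Finset.sdiff_sdiff_eq_self (Finset.subset_univ W)] at this

/-- The regularity of the colon ideal is bounded by that of the edge ideal. -/
theorem colon_reg {r : ℤ} (h : Rg k (St G univ 0) r) (W : Finset σ) {a : σ → ℤ} (ha : InG G a) :
    Rg k (St G W a) r :=
  colon_reg_aux (W.card + sz a).toNat W a r Set.univ (Int.self_le_toNat _) ha
    (fun _ _ => Set.mem_univ _) (fun _ _ => Set.mem_univ _) (ler_univ h)

end Pool.Agent.Lib.MP_b26ec7_al
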