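import Mathlib

set_option autoImplicit false

namespace Pool.Agent.Lib.MP_b26ec7_al

open MvPolynomial

universe u

/-- The edge ideal of `G` in `k[x_1, ..., x_n]`. -/
noncomputable def edgeIdeal (k : Type u) [Field k] {n : ℕ} (G : SimpleGraph (Fin n)) :
    Ideal (MvPolynomial (Fin n) k) :=
  Ideal.span {p | ∃ i j, G.Adj i j ∧ p = X i * X j}

/-- A minimal graded free resolution of `J`: the free module `F_i` has a basis indexed by
`Fin (rank i)` with degrees `deg i`, the map `F_0 → J` sends the basis to `gen`, and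
`d i` is the matrix of `F_{i+1} → F_i`. -/
structure MinRes {k : Type u} [Field k] {n : ℕ} (J : Ideal (MvPolynomial (Fin n) k)) where
  rank : ℕ → ℕ
  deg : (i : ℕ) → Fin (rank i) → ℕ
  gen : Fin (rank 0) → MvPolynomial (Fin n) k
  d : (i : ℕ) → Matrix (Fin (rank i)) (Fin (rank (i + 1))) (MvPolynomial (Fin n) k)
  gen_homog : ∀ b, (gen b).IsHomogeneous (deg 0 b)
  d_homog : ∀ i a b, d i a b = 0 ∨
    ∃ e, deg i a + e = deg (i + 1) b ∧ (d i a b).IsHomogeneous e
  span_gen : Ideal.span (Set.range gen) = J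
  exact_zero : Function.Exact (d 0).mulVec (fun v => ∑ b, gen b * v b)
  exact_succ : ∀ i, Function.Exact (d (i + 1)).mulVec (d i).mulVec
  minimal : ∀ i a b, constantCoeff (d i a b) = 0

/-- Castelnuovo-Mumford regularity: the largest value of (degree of a basis element of `F_i`)
minus `i` in a minimal graded free resolution. -/
noncomputable def reg {k : Type u} [Field k] {n : ℕ} (J : Ideal (MvPolynomial (Fin n) k)) : ℤ :=
  sSup {r : ℤ | ∃ (F : MinRes J) (i : ℕ) (b : Fin (F.rank i)), r = (F.deg i b : ℤ) - i}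

end Pool.Agent.Lib.MP_b26ec7_al
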