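import Pool.Agent.Lib.MP_b26ec7_al.Res
import Pool.Agent.Lib.MP_b26ec7_al.Defs

set_option autoImplicit false
set_option linter.unusedSectionVars false

namespace Pool.Agent.Lib.MP_b26ec7_al

open Finset MvPolynomial

universe u

variable {σ : Type} [LinearOrder σ] [Fintype σ] {k : Type u} [Field k]

/-- Graded submodules. -/
def HomSub {ι : Type} (Z : Submodule (MvPolynomial σ k) (ι → MvPolynomial σ k)) (deg : ι → ℕ) :
    Prop := ∀ z ∈ Z, ∀ e, pj deg e z ∈ Z

lemma pj_zero {ι : Type} (deg : ι → ℕ) (e : ℤ) : pj deg e (0 : ι → MvPolynomial σ k) = 0 :=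
  pj_of_hg fun b m h => absurd (by simp) h

lemma homSub_ker {ι κ : Type} [Fintype κ] {dι : ι → ℕ} {dκ : κ → ℕ}
    {φ : Matrix ι κ (MvPolynomial σ k)} (h : MH dι dκ φ) :
    HomSub (LinearMap.ker φ.mulVecLin) dκ := by
  intro z hz e
  rw [LinearMap.mem_ker, Matrix.mulVecLin_apply] at hz ⊢
  rw [mulVec_pj h, hz, pj_zero]

lemma exists_gen {ι : Type} [Fintype ι] {Z : Submodule (MvPolynomial σ k) (ι → MvPolynomial σ k)}
    {deg : ι → ℕ} (hZ : HomSub Z deg) : ∃ (N : ℕ) (d : Fin N → ℕ)
      (φ : Matrix ι (Fin N) (MvPolynomial σ k)), MH deg d φ ∧ ∀ z, z ∈ Z ↔ ∃ f, φ.mulVec f = z := by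
  classical
  have hspan : Submodule.span (MvPolynomial σ k) {z | z ∈ Z ∧ ∃ e : ℕ, Hg deg e z} = Z := by
    refine le_antisymm (Submodule.span_le.mpr fun z hz => hz.1) fun z hz => ?_
    have : z = ∑ e ∈ Finset.range (univ.sup (fun b => (z b).totalDegree + deg b) + 1),
        pj deg (e : ℕ) z := by
      funext b
      ext m
      simp only [Finset.sum_apply, coeff_sum, coeff_pj]
      by_cases h0 : coeff m (z b) = 0
      · simp [h0]
      · have h1 : m.degree ≤ (z b).totalDegree := by
          have := le_totalDegree (mem_support_iff.mpr h0)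
          rwa [Finsupp.degree_apply]
        have h2 : (z b).totalDegree + deg b ≤ univ.sup (fun b => (z b).totalDegree + deg b) :=
          Finset.le_sup (f := fun b => (z b).totalDegree + deg b) (Finset.mem_univ b)
        rw [Finset.sum_eq_single (m.degree + deg b)]
        · simp
        · intro e _ he
          rw [if_neg (by omega)]
        · intro hh
          exact absurd (Finset.mem_range.mpr (by omega)) hh
    rw [this]
    exact Submodule.sum_mem _ fun e _ => Submodule.subset_span ⟨hZ z hz _, e, hg_pj _ _ _⟩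
  have hfg : Z.FG := IsNoetherian.noetherian Z
  rw [← hspan, Submodule.fg_span_iff_fg_span_finset_subset] at hfg
  obtain ⟨t, ht, ht'⟩ := hfg
  rw [hspan] at ht'
  have hd : ∀ x : t, ∃ e : ℕ, Hg deg e x.1 := fun x => (ht x.2).2
  choose d hd using hd
  refine ⟨t.card, fun b => d (t.equivFin.symm b), fun a b => (t.equivFin.symm b).1 a,
    fun a b m hm => by exact_mod_cast hd _ a m hm, fun z => ?_⟩
  have h1 := Matrix.range_mulVecLin
    (fun a b => (t.equivFin.symm b).1 a : Matrix ι (Fin t.card) (MvPolynomial σ k))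
  have h2 : Set.range (Matrix.col
      (fun a b => (t.equivFin.symm b).1 a : Matrix ι (Fin t.card) (MvPolynomial σ k))) = t := by
    ext x
    constructor
    · rintro ⟨b, rfl⟩
      exact (t.equivFin.symm b).2
    · intro hx
      refine ⟨t.equivFin ⟨x, hx⟩, ?_⟩
      funext a
      show (t.equivFin.symm (t.equivFin ⟨x, hx⟩)).1 a = x a
      rw [Equiv.symm_apply_apply]
  rw [h2, ← ht'] at h1
  rw [← h1, LinearMap.mem_range]
  rfl

theorem exists_min_gen {ι : Type} [Fintype ι]
    {Z : Submodule (MvPolynomial σ k) (ι → MvPolynomial σ k)}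
    {deg : ι → ℕ} (hZ : HomSub Z deg) : ∃ (N : ℕ) (d : Fin N → ℕ)
      (φ : Matrix ι (Fin N) (MvPolynomial σ k)), MH deg d φ ∧
      (∀ z, z ∈ Z ↔ ∃ f, φ.mulVec f = z) ∧ ∀ f, φ.mulVec f = 0 → ∀ b, coeff 0 (f b) = 0 := by
  classical
  have hex := exists_gen hZ
  obtain ⟨d, φ, h1, h2⟩ := Nat.find_spec hex
  have hmin := fun m (hm : m < Nat.find hex) => Nat.find_min hex hm
  refine ⟨_, d, φ, h1, h2, fun f hf b0 => ?_⟩
  by_contra h0
  generalize Nat.find hex = N at *
  rcases N with _ | N
  · exact b0.elim0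
  refine hmin N (Nat.lt_succ_self N) ⟨fun b => d (b0.succAbove b),
    fun a b => φ a (b0.succAbove b), fun a b m hm => h1 a _ m hm, fun z => ?_⟩
  have hf' : φ.mulVec (pj d (d b0) f) = 0 := by rw [mulVec_pj h1, hf, pj_zero]
  have hc : pj d (d b0) f b0 = C (coeff 0 (f b0)) := by
    ext m
    rw [coeff_pj, coeff_C]
    by_cases e : m = 0
    · subst e; simp
    · rw [if_neg (Ne.symm e), if_neg]
      intro hh
      exact e ((Finsupp.degree_eq_zero_iff m).mp (by omega))
  have hred : ∀ g : Fin (N + 1) → MvPolynomial σ k, g b0 = 0 →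
      Matrix.mulVec (fun a b => φ a (b0.succAbove b)) (fun b => g (b0.succAbove b))
        = φ.mulVec g := by
    intro g hg
    funext a
    simp only [Matrix.mulVec, dotProduct]
    rw [Fin.sum_univ_succAbove _ b0, hg]
    simp
  rw [h2]
  constructor
  · rintro ⟨g, rfl⟩
    refine ⟨_, (hred (g - (g b0 * C (coeff 0 (f b0))⁻¹) • pj d (d b0) f) ?_).trans ?_⟩
    · rw [Pi.sub_apply, Pi.smul_apply, hc, smul_eq_mul, mul_assoc, ← C_mul, inv_mul_cancel₀ h0]
      simp
    · rw [Matrix.mulVec_sub, Matrix.mulVec_smul, hf']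
      simp
  · rintro ⟨g, rfl⟩
    refine ⟨b0.insertNth 0 g, ?_⟩
    rw [← hred _ (by simp)]
    simp

variable (σ k) in
/-- A graded submodule of a finitely generated graded free module. -/
structure Stage where
  N : ℕ
  d : Fin N → ℕ
  Z : Submodule (MvPolynomial σ k) (Fin N → MvPolynomial σ k)
  hZ : HomSub Z d

/-- The next syzygy module. -/
noncomputable def Stage.next (s : Stage σ k) : Stage σ k where
  N := (exists_min_gen s.hZ).choose
  d := (exists_min_gen s.hZ).choose_spec.choose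
  Z := LinearMap.ker (exists_min_gen s.hZ).choose_spec.choose_spec.choose.mulVecLin
  hZ := homSub_ker (exists_min_gen s.hZ).choose_spec.choose_spec.choose_spec.1

/-- The matrix of generators. -/
noncomputable def Stage.mat (s : Stage σ k) :
    Matrix (Fin s.N) (Fin s.next.N) (MvPolynomial σ k) :=
  (exists_min_gen s.hZ).choose_spec.choose_spec.choose

lemma Stage.spec (s : Stage σ k) : MH s.d s.next.d s.mat ∧
    (∀ z, z ∈ s.Z ↔ ∃ f, s.mat.mulVec f = z) ∧ ∀ f, s.mat.mulVec f = 0 → ∀ b, coeff 0 (f b) = 0 :=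
  (exists_min_gen s.hZ).choose_spec.choose_spec.choose_spec

lemma Stage.mem_next (s : Stage σ k) (f : Fin s.next.N → MvPolynomial σ k) :
    f ∈ s.next.Z ↔ s.mat.mulVec f = 0 := Iff.rfl

/-- The sequence of syzygy modules. -/
noncomputable def Stage.iter (s : Stage σ k) : ℕ → Stage σ k
  | 0 => s
  | i + 1 => (Stage.iter s i).next

lemma isHom_iff (p : MvPolynomial σ k) (e : ℕ) :
    p.IsHomogeneous e ↔ ∀ m, coeff m p ≠ 0 → m.degree = e := by
  constructor
  · intro h m hm
    by_contra hn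
    exact hm (h.coeff_eq_zero hn)
  · intro h m hm
    rw [← h m hm, Finsupp.degree_eq_weight_one]
    rfl

theorem exists_minRes {n : ℕ} (J : Ideal (MvPolynomial (Fin n) k)) (E : Set (Fin n → ℤ))
    (hJ : ∀ p, p ∈ J ↔ ∀ m, coeff m p ≠ 0 → tz m ∈ E) : Nonempty (MinRes J) := by
  classical
  have h0 : HomSub (Submodule.comap (LinearMap.proj () : (Unit → MvPolynomial (Fin n) k)
      →ₗ[MvPolynomial (Fin n) k] MvPolynomial (Fin n) k) J) (fun _ => 0) := by
    intro z hz e
    refine (hJ _).mpr fun m hm => (hJ _).mp hz m fun h => hm ?_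
    rw [LinearMap.proj_apply, coeff_pj]
    split_ifs
    · exact h
    · rfl
  obtain ⟨N, d, φ, h1, h2, h3⟩ := exists_min_gen h0
  let s0 : Stage (Fin n) k := ⟨N, d, LinearMap.ker φ.mulVecLin, homSub_ker h1⟩
  have hmin : ∀ i, ∀ f ∈ (s0.iter i).Z, ∀ b, coeff 0 (f b) = 0 := by
    intro i
    rcases i with _ | i
    · exact fun f hf => h3 f hf
    · exact fun f hf => (s0.iter i).spec.2.2 f hf
  refine ⟨⟨fun i => (s0.iter i).N, fun i => (s0.iter i).d, fun b => φ () b,
    fun i => (s0.iter i).mat, fun b => ?_, fun i a b => ?_, ?_, fun v => ?_, fun i v => ?_,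
    fun i a b => ?_⟩⟩
  · exact (isHom_iff _ _).mpr fun m hm => h1 () b m hm
  · by_cases h : (s0.iter i).mat a b = 0
    · exact Or.inl h
    · obtain ⟨m0, hm0⟩ := ne_zero_iff.mp h
      have e0 := (s0.iter i).spec.1 a b m0 hm0
      refine Or.inr ⟨m0.degree, by rw [add_comm]; exact e0, (isHom_iff _ _).mpr fun m hm => ?_⟩
      have := (s0.iter i).spec.1 a b m hm
      omega
  · ext p
    rw [Ideal.mem_span_range_iff_exists_fun]
    have := h2 (fun _ => p)
    refine Iff.trans ?_ this.symm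
    constructor
    · rintro ⟨c, hc⟩
      refine ⟨c, ?_⟩
      funext x
      rw [← hc]
      simp only [Matrix.mulVec, dotProduct]
      exact Finset.sum_congr rfl fun b _ => mul_comm _ _
    · rintro ⟨c, hc⟩
      refine ⟨c, ?_⟩
      rw [← congrFun hc ()]
      simp only [Matrix.mulVec, dotProduct]
      exact Finset.sum_congr rfl fun b _ => mul_comm _ _
  · refine Iff.trans ?_ ((s0.iter 0).spec.2.1 v)
    show _ ↔ φ.mulVec v = 0
    constructor
    · intro h
      funext x
      exact h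
    · intro h
      exact congrFun h ()
  · exact ((s0.iter i).mem_next v).symm.trans ((s0.iter (i + 1)).spec.2.1 v)
  · exact hmin i _ (((s0.iter i).spec.2.1 _).mpr
      ⟨_, Matrix.mulVec_single_one (s0.iter i).mat b⟩) a

end Pool.Agent.Lib.MP_b26ec7_al
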