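import Mathlib

set_option autoImplicit false

namespace Pool.Agent.Lib.MP_b26ec7_al

open Finset

universe u

variable {σ : Type} [LinearOrder σ]

/-- The sign of `v` relative to `τ`. -/
def sg (v : σ) (τ : Finset σ) : ℤ := (-1) ^ (τ.filter (· < v)).card

lemma sg_mul_self (v : σ) (τ : Finset σ) : sg v τ * sg v τ = 1 := by
  unfold sg
  rw [← mul_pow]
  simp

lemma sg_insert {u v : σ} {τ : Finset σ} (hu : u ∉ τ) :
    sg v (insert u τ) = if u < v then - sg v τ else sg v τ := by
  unfold sg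
  rw [Finset.filter_insert]
  split_ifs with h
  · rw [Finset.card_insert_of_notMem (fun hh => hu (Finset.mem_filter.mp hh).1), pow_succ]
    ring
  · rfl

lemma sg_swap {u v : σ} {τ : Finset σ} (huv : u ≠ v) (hu : u ∉ τ) (hv : v ∉ τ) :
    sg v τ * sg u (insert v τ) = - (sg u τ * sg v (insert u τ)) := by
  rw [sg_insert hu, sg_insert hv]
  rcases lt_or_gt_of_ne huv with h | h
  · rw [if_pos h, if_neg (not_lt.mpr h.le)]; ring
  · rw [if_pos h, if_neg (not_lt.mpr h.le)]; ring

variable [Fintype σ]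

section General

variable {R M N : Type*} [CommRing R] [AddCommGroup M] [Module R M] [AddCommGroup N] [Module R N]

/-- The Koszul differential. -/
def kd (x : σ → R) (c : Finset σ → M) : Finset σ → M :=
  fun τ => ∑ v, if v ∈ τ then 0 else sg v τ • x v • c (insert v τ)

lemma kd_add (x : σ → R) (c c' : Finset σ → M) : kd x (c + c') = kd x c + kd x c' := by
  funext τ
  simp only [kd, Pi.add_apply, ← Finset.sum_add_distrib]
  refine Finset.sum_congr rfl fun v _ => ?_
  split_ifs <;> simp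

lemma kd_sub (x : σ → R) (c c' : Finset σ → M) : kd x (c - c') = kd x c - kd x c' := by
  funext τ
  simp only [kd, Pi.sub_apply, ← Finset.sum_sub_distrib]
  refine Finset.sum_congr rfl fun v _ => ?_
  split_ifs <;> simp [smul_sub]

lemma kd_zero (x : σ → R) : kd x (0 : Finset σ → M) = 0 := by
  funext τ
  simp [kd]

lemma kd_map (x : σ → R) (φ : M →ₗ[R] N) (c : Finset σ → M) (τ : Finset σ) :
    kd x (fun t => φ (c t)) τ = φ (kd x c τ) := by
  simp only [kd, map_sum]
  refine Finset.sum_congr rfl fun v _ => ?_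
  split_ifs <;> simp

lemma kd_congr (x : σ → R) (c c' : Finset σ → M) (τ : Finset σ)
    (h : ∀ v, v ∉ τ → c (insert v τ) = c' (insert v τ)) : kd x c τ = kd x c' τ := by
  simp only [kd]
  refine Finset.sum_congr rfl fun v _ => ?_
  split_ifs with hv
  · rfl
  · rw [h v hv]

lemma kd_eq_zero (x : σ → R) (c : Finset σ → M) (τ : Finset σ)
    (h : ∀ v, v ∉ τ → c (insert v τ) = 0) : kd x c τ = 0 := by
  rw [kd_congr x c 0 τ h, kd_zero]; rfl

lemma kd_kd (x : σ → R) (c : Finset σ → M) (τ : Finset σ) : kd x (kd x c) τ = 0 := by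
  classical
  let f : σ × σ → M := fun p => if p.1 ∈ τ ∨ p.2 ∈ τ ∨ p.2 = p.1 then 0 else
    (sg p.1 τ * sg p.2 (insert p.1 τ)) • (x p.1 * x p.2) • c (insert p.2 (insert p.1 τ))
  have h1 : kd x (kd x c) τ = ∑ p : σ × σ, f p := by
    rw [Fintype.sum_prod_type]
    simp only [kd]
    refine Finset.sum_congr rfl fun v _ => ?_
    split_ifs with hv
    · symm
      refine Finset.sum_eq_zero fun u _ => ?_
      simp [f, hv]
    · rw [Finset.smul_sum, Finset.smul_sum]
      refine Finset.sum_congr rfl fun u _ => ?_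
      by_cases hu : u ∈ insert v τ
      · rw [if_pos hu]
        have : v ∈ τ ∨ u ∈ τ ∨ u = v := by
          rcases Finset.mem_insert.mp hu with h | h
          · exact Or.inr (Or.inr h)
          · exact Or.inr (Or.inl h)
        simp only [f]
        rw [if_pos this]; simp
      · rw [if_neg hu]
        have : ¬ (v ∈ τ ∨ u ∈ τ ∨ u = v) := by
          simp only [Finset.mem_insert, not_or] at hu ⊢
          exact ⟨hv, hu.2, hu.1⟩
        simp only [f]
        rw [if_neg this, mul_smul, mul_smul, smul_comm (x v) (sg u (insert v τ))]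
  rw [h1]
  refine Finset.sum_involution (fun p _ => p.swap) ?_ ?_ (fun _ _ => Finset.mem_univ _)
    (fun _ _ => rfl)
  · rintro ⟨v, u⟩ _
    simp only [f, Prod.swap]
    by_cases h : v ∈ τ ∨ u ∈ τ ∨ u = v
    · have h' : u ∈ τ ∨ v ∈ τ ∨ v = u := by tauto
      rw [if_pos h, if_pos h']; simp
    · have h' : ¬ (u ∈ τ ∨ v ∈ τ ∨ v = u) := by tauto
      rw [if_neg h, if_neg h']
      simp only [not_or] at h
      rw [sg_swap h.2.2 h.2.1 h.1, Finset.insert_comm u v τ, mul_comm (x v) (x u)]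
      simp
  · rintro ⟨v, u⟩ _ hf hs
    apply hf
    simp only [Prod.swap, Prod.mk.injEq] at hs
    simp only [f]
    rw [if_pos (Or.inr (Or.inr hs.1))]

end General

section Fam

variable {k : Type u} [Field k]

/-- The simplicial differential. -/
def d1 (c : Finset σ → k) : Finset σ → k := kd (fun _ => (1 : k)) c

lemma d1_apply (c : Finset σ → k) (τ : Finset σ) :
    d1 c τ = ∑ v, if v ∈ τ then 0 else (sg v τ : k) * c (insert v τ) := by
  simp [d1, kd]

/-- `c` is supported on members of `F` of cardinality `i`. -/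
def Supp (c : Finset σ → k) (F : Set (Finset σ)) (i : ℕ) : Prop :=
  ∀ τ, c τ ≠ 0 → τ ∈ F ∧ τ.card = i

variable (k) in
/-- The complex spanned by the family `F` is exact at the sets of cardinality `i`. -/
def Ex (F : Set (Finset σ)) (i : ℕ) : Prop :=
  ∀ c : Finset σ → k, Supp c F i → (∀ τ ∈ F, d1 c τ = 0) →
    ∃ b : Finset σ → k, Supp b F (i + 1) ∧ ∀ τ ∈ F, d1 b τ = c τ

/-- Convexity of a family. -/
def Cvx (F : Set (Finset σ)) : Prop :=
  ∀ τ u v, τ ∈ F → insert v (insert u τ) ∈ F → insert u τ ∈ F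

open Classical in
/-- Restriction of a chain to a family. -/
noncomputable def res (F : Set (Finset σ)) (c : Finset σ → k) : Finset σ → k :=
  fun τ => if τ ∈ F then c τ else 0

omit [Fintype σ] [LinearOrder σ] in
lemma res_of_mem {F : Set (Finset σ)} {c : Finset σ → k} {τ : Finset σ} (h : τ ∈ F) :
    res F c τ = c τ := by simp [res, h]

omit [Fintype σ] [LinearOrder σ] in
lemma res_of_notMem {F : Set (Finset σ)} {c : Finset σ → k} {τ : Finset σ} (h : τ ∉ F) :
    res F c τ = 0 := by simp [res, h]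

lemma d1_congr (c c' : Finset σ → k) (τ : Finset σ)
    (h : ∀ v, v ∉ τ → c (insert v τ) = c' (insert v τ)) : d1 c τ = d1 c' τ :=
  kd_congr _ c c' τ h

lemma d1_eq_zero (c : Finset σ → k) (τ : Finset σ)
    (h : ∀ v, v ∉ τ → c (insert v τ) = 0) : d1 c τ = 0 := kd_eq_zero _ c τ h

lemma d1_add (c c' : Finset σ → k) (τ : Finset σ) : d1 (c + c') τ = d1 c τ + d1 c' τ := by
  simp [d1, kd_add]

lemma d1_sub (c c' : Finset σ → k) (τ : Finset σ) : d1 (c - c') τ = d1 c τ - d1 c' τ := by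
  simp [d1, kd_sub]

lemma d1_card {c : Finset σ → k} {F : Set (Finset σ)} {i : ℕ} (h : Supp c F (i + 1))
    {τ : Finset σ} (hτ : d1 c τ ≠ 0) : τ.card = i := by
  by_contra hne
  apply hτ
  refine d1_eq_zero c τ fun v hv => ?_
  by_contra h0
  have := (h _ h0).2
  rw [Finset.card_insert_of_notMem hv] at this
  omega

lemma d1_res_d1 {F : Set (Finset σ)} (hF : Cvx F) {b : Finset σ → k} {i : ℕ} (hb : Supp b F i)
    {τ : Finset σ} (hτ : τ ∈ F) : d1 (res F (d1 b)) τ = 0 := by
  rw [d1_congr _ (d1 b) τ]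
  · exact kd_kd _ b τ
  · intro u _
    by_cases h : insert u τ ∈ F
    · exact res_of_mem h
    · rw [res_of_notMem h]
      symm
      refine d1_eq_zero b _ fun v _ => ?_
      by_contra h0
      exact h (hF τ u v hτ (hb _ h0).1)

/-- `F1` is a subcomplex of `F` with quotient `F2`. -/
structure SES (F1 F F2 : Set (Finset σ)) : Prop where
  cvx : Cvx F
  mem : ∀ τ, τ ∈ F ↔ τ ∈ F1 ∨ τ ∈ F2
  disj : ∀ τ, τ ∈ F1 → τ ∈ F2 → False
  down : ∀ τ v, τ ∈ F → insert v τ ∈ F1 → τ ∈ F1

lemma SES.d1_sub_zero {F1 F F2 : Set (Finset σ)} (h : SES F1 F F2) {c : Finset σ → k}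
    (hc : ∀ τ, c τ ≠ 0 → τ ∈ F1) {τ : Finset σ} (hτ : τ ∈ F2) : d1 c τ = 0 := by
  refine d1_eq_zero c τ fun v _ => ?_
  by_contra h0
  exact h.disj τ (h.down τ v ((h.mem τ).mpr (Or.inr hτ)) (hc _ h0)) hτ

theorem SES.mid {F1 F F2 : Set (Finset σ)} (h : SES F1 F F2) {i : ℕ}
    (h1 : Ex k F1 i) (h2 : Ex k F2 i) : Ex k F i := by
  intro c hc hcyc
  have hsplit : c = res F1 c + res F2 c := by
    funext τ
    simp only [Pi.add_apply]
    by_cases h0 : c τ = 0
    · simp [res, h0]
    · rcases (h.mem τ).mp (hc τ h0).1 with h' | h'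
      · rw [res_of_mem h', res_of_notMem (fun h'' => h.disj τ h' h''), add_zero]
      · rw [res_of_mem h', res_of_notMem (fun h'' => h.disj τ h'' h'), zero_add]
  have hr1 : ∀ τ, res F1 c τ ≠ 0 → τ ∈ F1 := fun τ h0 => by
    by_contra hn; exact h0 (res_of_notMem hn)
  obtain ⟨b2, hb2, hdb2⟩ := h2 (res F2 c) (fun τ h0 => by
      have hm : τ ∈ F2 := by by_contra hn; exact h0 (res_of_notMem hn)
      rw [res_of_mem hm] at h0
      exact ⟨hm, (hc τ h0).2⟩)
    (fun τ hτ => by
      have e := hcyc τ ((h.mem τ).mpr (Or.inr hτ))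
      rw [hsplit, d1_add, h.d1_sub_zero hr1 hτ, zero_add] at e
      exact e)
  have hb2F : Supp b2 F (i + 1) := fun τ h0 => ⟨(h.mem τ).mpr (Or.inr (hb2 τ h0).1), (hb2 τ h0).2⟩
  obtain ⟨b1, hb1, hdb1⟩ := h1 (c - res F (d1 b2)) (fun τ h0 => by
      simp only [Pi.sub_apply] at h0
      have hF : τ ∈ F := by
        by_contra hn
        apply h0
        rw [res_of_notMem hn, sub_zero]
        by_contra h00
        exact hn (hc τ h00).1
      rw [res_of_mem hF] at h0
      refine ⟨?_, ?_⟩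
      · rcases (h.mem τ).mp hF with h' | h'
        · exact h'
        · exact absurd (by rw [hdb2 τ h', res_of_mem h', sub_self]) h0
      · by_cases h00 : c τ = 0
        · rw [h00, zero_sub, neg_ne_zero] at h0
          exact d1_card hb2 h0
        · exact (hc τ h00).2)
    (fun τ hτ => by
      have hF : τ ∈ F := (h.mem τ).mpr (Or.inl hτ)
      rw [d1_sub, hcyc τ hF, d1_res_d1 h.cvx hb2F hF, sub_zero])
  refine ⟨b1 + b2, fun τ h0 => ?_, fun τ hτ => ?_⟩
  · simp only [Pi.add_apply] at h0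
    by_cases h00 : b1 τ = 0
    · rw [h00, zero_add] at h0
      exact hb2F τ h0
    · exact ⟨(h.mem τ).mpr (Or.inl (hb1 τ h00).1), (hb1 τ h00).2⟩
  · rw [d1_add]
    rcases (h.mem τ).mp hτ with h' | h'
    · rw [hdb1 τ h']
      simp only [Pi.sub_apply]
      rw [res_of_mem hτ]; ring
    · rw [h.d1_sub_zero (fun τ h0 => (hb1 τ h0).1) h', hdb2 τ h', res_of_mem h', zero_add]

theorem SES.sub {F1 F F2 : Set (Finset σ)} (h : SES F1 F F2) {i : ℕ}
    (h2 : Ex k F2 (i + 1)) (h0 : Ex k F i) : Ex k F1 i := by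
  intro c hc hcyc
  obtain ⟨b, hb, hdb⟩ := h0 c (fun τ h0 => ⟨(h.mem τ).mpr (Or.inl (hc τ h0).1), (hc τ h0).2⟩)
    (fun τ hτ => by
      rcases (h.mem τ).mp hτ with h' | h'
      · exact hcyc τ h'
      · exact h.d1_sub_zero (fun τ h0 => (hc τ h0).1) h')
  have hsplit : b = res F1 b + res F2 b := by
    funext τ
    simp only [Pi.add_apply]
    by_cases h0 : b τ = 0
    · simp [res, h0]
    · rcases (h.mem τ).mp (hb τ h0).1 with h' | h'
      · rw [res_of_mem h', res_of_notMem (fun h'' => h.disj τ h' h''), add_zero]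
      · rw [res_of_mem h', res_of_notMem (fun h'' => h.disj τ h'' h'), zero_add]
  have hr1 : ∀ τ, res F1 b τ ≠ 0 → τ ∈ F1 := fun τ h0 => by
    by_contra hn; exact h0 (res_of_notMem hn)
  obtain ⟨e, he, hde⟩ := h2 (res F2 b) (fun τ h0 => by
      have hm : τ ∈ F2 := by by_contra hn; exact h0 (res_of_notMem hn)
      rw [res_of_mem hm] at h0
      exact ⟨hm, (hb τ h0).2⟩)
    (fun τ hτ => by
      have e := hdb τ ((h.mem τ).mpr (Or.inr hτ))
      rw [hsplit, d1_add, h.d1_sub_zero hr1 hτ, zero_add] at e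
      rw [e]
      by_contra h00
      exact h.disj τ (hc τ h00).1 hτ)
  have heF : Supp e F (i + 1 + 1) :=
    fun τ h0 => ⟨(h.mem τ).mpr (Or.inr (he τ h0).1), (he τ h0).2⟩
  refine ⟨b - res F (d1 e), fun τ h0 => ?_, fun τ hτ => ?_⟩
  · simp only [Pi.sub_apply] at h0
    have hF : τ ∈ F := by
      by_contra hn
      apply h0
      rw [res_of_notMem hn, sub_zero]
      by_contra h00
      exact hn (hb τ h00).1
    rw [res_of_mem hF] at h0
    refine ⟨?_, ?_⟩
    · rcases (h.mem τ).mp hF with h' | h'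
      · exact h'
      · exact absurd (by rw [hde τ h', res_of_mem h', sub_self]) h0
    · by_cases h00 : b τ = 0
      · rw [h00, zero_sub, neg_ne_zero] at h0
        exact d1_card he h0
      · exact (hb τ h00).2
  · have hF : τ ∈ F := (h.mem τ).mpr (Or.inl hτ)
    rw [d1_sub, hdb τ hF, d1_res_d1 h.cvx heF hF, sub_zero]

theorem SES.quot {F1 F F2 : Set (Finset σ)} (h : SES F1 F F2) {i : ℕ}
    (h0 : Ex k F i) (h1 : ∀ j, j + 1 = i → Ex k F1 j) : Ex k F2 i := by
  intro c hc hcyc
  have hcF : Supp c F i := fun τ h0 => ⟨(h.mem τ).mpr (Or.inr (hc τ h0).1), (hc τ h0).2⟩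
  have key : ∃ e : Finset σ → k, Supp e F1 i ∧ ∀ τ ∈ F1, d1 e τ = d1 c τ := by
    rcases i with _ | j
    · refine ⟨0, fun τ h0 => absurd rfl h0, fun τ _ => ?_⟩
      rw [d1_eq_zero _ τ (fun _ _ => rfl), d1_eq_zero c τ]
      intro v hv
      by_contra h00
      have := (hc _ h00).2
      rw [Finset.card_insert_of_notMem hv] at this
      omega
    · obtain ⟨e, he, hde⟩ := h1 j rfl (res F (d1 c)) (fun τ h0 => by
          have hF : τ ∈ F := by by_contra hn; exact h0 (res_of_notMem hn)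
          rw [res_of_mem hF] at h0
          refine ⟨?_, d1_card hc h0⟩
          rcases (h.mem τ).mp hF with h' | h'
          · exact h'
          · exact absurd (hcyc τ h') h0)
        (fun τ hτ => d1_res_d1 h.cvx hcF ((h.mem τ).mpr (Or.inl hτ)))
      exact ⟨e, he, fun τ hτ => by rw [hde τ hτ, res_of_mem ((h.mem τ).mpr (Or.inl hτ))]⟩
  obtain ⟨e, he, hde⟩ := key
  obtain ⟨b, hb, hdb⟩ := h0 (c - e) (fun τ h0 => by
      simp only [Pi.sub_apply] at h0
      by_cases h00 : c τ = 0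
      · rw [h00, zero_sub, neg_ne_zero] at h0
        exact ⟨(h.mem τ).mpr (Or.inl (he τ h0).1), (he τ h0).2⟩
      · exact hcF τ h00)
    (fun τ hτ => by
      rw [d1_sub]
      rcases (h.mem τ).mp hτ with h' | h'
      · rw [hde τ h', sub_self]
      · rw [hcyc τ h', h.d1_sub_zero (fun τ h0 => (he τ h0).1) h', sub_self])
  have hsplit : b = res F1 b + res F2 b := by
    funext τ
    simp only [Pi.add_apply]
    by_cases h0 : b τ = 0
    · simp [res, h0]
    · rcases (h.mem τ).mp (hb τ h0).1 with h' | h'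
      · rw [res_of_mem h', res_of_notMem (fun h'' => h.disj τ h' h''), add_zero]
      · rw [res_of_mem h', res_of_notMem (fun h'' => h.disj τ h'' h'), zero_add]
  have hr1 : ∀ τ, res F1 b τ ≠ 0 → τ ∈ F1 := fun τ h0 => by
    by_contra hn; exact h0 (res_of_notMem hn)
  refine ⟨res F2 b, fun τ h0 => ?_, fun τ hτ => ?_⟩
  · have hm : τ ∈ F2 := by by_contra hn; exact h0 (res_of_notMem hn)
    rw [res_of_mem hm] at h0
    exact ⟨hm, (hb τ h0).2⟩
  · have e1 := hdb τ ((h.mem τ).mpr (Or.inr hτ))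
    rw [hsplit, d1_add, h.d1_sub_zero hr1 hτ, zero_add] at e1
    rw [e1]
    simp only [Pi.sub_apply]
    have : e τ = 0 := by
      by_contra h00
      exact h.disj τ (he τ h00).1 hτ
    rw [this, sub_zero]

/-- The homotopy operator. -/
def hop (p : σ) (c : Finset σ → k) : Finset σ → k :=
  fun τ => if p ∈ τ then (sg p (τ.erase p) : k) * c (τ.erase p) else 0

omit [Fintype σ] in
lemma hop_insert {p : σ} {τ : Finset σ} (hp : p ∉ τ) (c : Finset σ → k) :
    hop p c (insert p τ) = (sg p τ : k) * c τ := by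
  simp [hop, Finset.erase_insert hp]

omit [Fintype σ] in
lemma sg_sq (p : σ) (τ : Finset σ) : (sg p τ : k) * (sg p τ : k) = 1 := by
  rw [← Int.cast_mul, sg_mul_self, Int.cast_one]

lemma d1_hop_notMem {p : σ} {τ : Finset σ} (hp : p ∉ τ) (c : Finset σ → k) :
    d1 (hop p c) τ = c τ := by
  rw [d1_apply, Finset.sum_eq_single p]
  · rw [if_neg hp, hop_insert hp, ← mul_assoc, sg_sq, one_mul]
  · intro v _ hv
    split_ifs with h
    · rfl
    · have : p ∉ insert v τ := by
        simp only [Finset.mem_insert, not_or]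
        exact ⟨fun e => hv e.symm, hp⟩
      simp [hop, this]
  · intro h; exact absurd (Finset.mem_univ p) h

lemma d1_hop_insert {p : σ} {τ : Finset σ} (hp : p ∉ τ) (c : Finset σ → k) :
    d1 (hop p c) (insert p τ) = c (insert p τ) - (sg p τ : k) * d1 c τ := by
  rw [d1_apply, d1_apply, Finset.mul_sum]
  have : c (insert p τ) = ∑ v, if v = p then c (insert p τ) else 0 := by simp
  rw [this, ← Finset.sum_sub_distrib]
  refine Finset.sum_congr rfl fun v _ => ?_
  by_cases hv : v = p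
  · subst hv
    rw [if_pos (Finset.mem_insert_self _ _), if_pos rfl, if_neg hp, ← mul_assoc, sg_sq]
    simp
  · rw [if_neg hv]
    by_cases hvτ : v ∈ τ
    · rw [if_pos (Finset.mem_insert_of_mem hvτ), if_pos hvτ]; simp
    · have h1 : v ∉ insert p τ := by
        simp only [Finset.mem_insert, not_or]
        exact ⟨hv, hvτ⟩
      have h2 : p ∉ insert v τ := by
        simp only [Finset.mem_insert, not_or]
        exact ⟨fun e => hv e.symm, hp⟩
      rw [if_neg h1, if_neg hvτ, Finset.insert_comm v p τ, hop_insert h2]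
      have h3 := congrArg (Int.cast : ℤ → k) (sg_swap hv hvτ hp)
      push_cast at h3
      have h4 := sg_sq (k := k) p τ
      have h5 := sg_sq (k := k) v τ
      have h6 : (sg v (insert p τ) : k) * (sg p (insert v τ) : k)
          = - ((sg p τ : k) * (sg v τ : k)) := by
        have h7 := sg_sq (k := k) p (insert v τ)
        linear_combination ((sg p τ : k) * (sg p (insert v τ) : k)) * h3
          - ((sg v (insert p τ) : k) * (sg p (insert v τ) : k)) * h4
          - ((sg p τ : k) * (sg v τ : k)) * h7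
      linear_combination (c (insert v τ)) * h6

theorem ex_cone {F : Set (Finset σ)} (p : σ)
    (h : ∀ τ, p ∉ τ → (τ ∈ F ↔ insert p τ ∈ F)) (i : ℕ) : Ex k F i := by
  intro c hc hcyc
  refine ⟨hop p c, fun τ h0 => ?_, fun τ hτ => ?_⟩
  · have hp : p ∈ τ := by
      by_contra hn
      exact h0 (by simp [hop, hn])
    obtain ⟨τ0, hp0, rfl⟩ : ∃ τ0, p ∉ τ0 ∧ τ = insert p τ0 :=
      ⟨τ.erase p, Finset.notMem_erase p τ, (Finset.insert_erase hp).symm⟩
    rw [hop_insert hp0] at h0
    have h1 := hc τ0 (right_ne_zero_of_mul h0)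
    exact ⟨(h τ0 hp0).mp h1.1, by rw [Finset.card_insert_of_notMem hp0, h1.2]⟩
  · by_cases hp : p ∈ τ
    · obtain ⟨τ0, hp0, rfl⟩ : ∃ τ0, p ∉ τ0 ∧ τ = insert p τ0 :=
        ⟨τ.erase p, Finset.notMem_erase p τ, (Finset.insert_erase hp).symm⟩
      rw [d1_hop_insert hp0, hcyc τ0 ((h τ0 hp0).mpr hτ)]
      simp
    · exact d1_hop_notMem hp c

/-- Removing `p` from the sets. -/
def unhop (p : σ) (c : Finset σ → k) : Finset σ → k :=
  fun τ => if p ∈ τ then 0 else (sg p τ : k) * c (insert p τ)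

omit [Fintype σ] in
lemma hop_unhop {p : σ} (c : Finset σ → k) (hc : ∀ τ, c τ ≠ 0 → p ∈ τ) :
    hop p (unhop p c) = c := by
  funext τ
  by_cases hp : p ∈ τ
  · obtain ⟨τ0, hp0, rfl⟩ : ∃ τ0, p ∉ τ0 ∧ τ = insert p τ0 :=
      ⟨τ.erase p, Finset.notMem_erase p τ, (Finset.insert_erase hp).symm⟩
    rw [hop_insert hp0]
    simp only [unhop, if_neg hp0]
    rw [← mul_assoc, sg_sq, one_mul]
  · simp only [hop, if_neg hp]
    by_contra h0
    exact hp (hc τ (fun e => h0 e.symm))

/-- `F'` consists of the sets `insert p τ` with `τ ∈ F`. -/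
structure Shift (p : σ) (F F' : Set (Finset σ)) : Prop where
  notMem : ∀ τ ∈ F, p ∉ τ
  mem : ∀ τ ∈ F', p ∈ τ
  iff : ∀ τ, p ∉ τ → (τ ∈ F ↔ insert p τ ∈ F')

theorem Shift.down {p : σ} {F F' : Set (Finset σ)} (h : Shift p F F') {i : ℕ}
    (h' : Ex k F' (i + 1)) : Ex k F i := by
  intro c hc hcyc
  have hc0 : ∀ τ, c (insert p τ) = 0 := fun τ => by
    by_contra h0
    exact h.notMem _ (hc _ h0).1 (Finset.mem_insert_self _ _)
  obtain ⟨b, hb, hdb⟩ := h' (hop p c) (fun τ h0 => by
      have hp : p ∈ τ := by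
        by_contra hn
        exact h0 (by simp [hop, hn])
      obtain ⟨τ0, hp0, rfl⟩ : ∃ τ0, p ∉ τ0 ∧ τ = insert p τ0 :=
        ⟨τ.erase p, Finset.notMem_erase p τ, (Finset.insert_erase hp).symm⟩
      rw [hop_insert hp0] at h0
      have h1 := hc τ0 (right_ne_zero_of_mul h0)
      exact ⟨(h.iff τ0 hp0).mp h1.1, by rw [Finset.card_insert_of_notMem hp0, h1.2]⟩)
    (fun τ hτ => by
      have hp := h.mem τ hτ
      obtain ⟨τ0, hp0, rfl⟩ : ∃ τ0, p ∉ τ0 ∧ τ = insert p τ0 :=
        ⟨τ.erase p, Finset.notMem_erase p τ, (Finset.insert_erase hp).symm⟩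
      rw [d1_hop_insert hp0, hcyc τ0 ((h.iff τ0 hp0).mpr hτ), hc0]
      simp)
  have hbp : ∀ τ, b τ ≠ 0 → p ∈ τ := fun τ h0 => h.mem τ (hb τ h0).1
  refine ⟨fun τ => - unhop p b τ, fun τ h0 => ?_, fun τ hτ => ?_⟩
  · have hp : p ∉ τ := by
      intro hp
      exact h0 (by simp [unhop, hp])
    simp only [unhop, if_neg hp, neg_ne_zero] at h0
    have h1 := hb _ (right_ne_zero_of_mul h0)
    refine ⟨(h.iff τ hp).mpr h1.1, ?_⟩
    have := h1.2
    rw [Finset.card_insert_of_notMem hp] at this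
    omega
  · have hp := h.notMem τ hτ
    have e1 := hdb _ ((h.iff τ hp).mp hτ)
    rw [← hop_unhop b hbp, d1_hop_insert hp, hop_insert hp] at e1
    have e2 : unhop p b (insert p τ) = 0 := by simp [unhop]
    rw [e2] at e1
    have e3 : d1 (fun τ => - unhop p b τ) τ = - d1 (unhop p b) τ := by
      have := d1_sub (0 : Finset σ → k) (unhop p b) τ
      rw [d1_eq_zero 0 τ (fun _ _ => rfl), zero_sub, zero_sub] at this
      exact this
    rw [e3]
    have h4 := sg_sq (k := k) p τ
    linear_combination (sg p τ : k) * e1 + (d1 (unhop p b) τ + c τ) * h4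

theorem Shift.up {p : σ} {F F' : Set (Finset σ)} (h : Shift p F F') {i : ℕ}
    (h' : ∀ j, j + 1 = i → Ex k F j) : Ex k F' i := by
  intro c hc hcyc
  have hcp : ∀ τ, c τ ≠ 0 → p ∈ τ := fun τ h0 => h.mem τ (hc τ h0).1
  rcases i with _ | j
  · refine ⟨0, fun τ h0 => absurd rfl h0, fun τ hτ => ?_⟩
    rw [d1_eq_zero _ τ (fun _ _ => rfl)]
    by_contra h0
    have h1 := hc τ (fun e => h0 e.symm)
    have h2 := h.mem τ hτ
    rw [Finset.card_eq_zero.mp h1.2] at h2
    simp at h2
  obtain ⟨b, hb, hdb⟩ := h' j rfl (unhop p c) (fun τ h0 => by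
      have hp : p ∉ τ := by
        intro hp
        exact h0 (by simp [unhop, hp])
      simp only [unhop, if_neg hp] at h0
      have h1 := hc _ (right_ne_zero_of_mul h0)
      refine ⟨(h.iff τ hp).mpr h1.1, ?_⟩
      have := h1.2
      rw [Finset.card_insert_of_notMem hp] at this
      omega)
    (fun τ hτ => by
      have hp := h.notMem τ hτ
      have e1 := hcyc _ ((h.iff τ hp).mp hτ)
      rw [← hop_unhop c hcp, d1_hop_insert hp] at e1
      have e2 : unhop p c (insert p τ) = 0 := by simp [unhop]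
      rw [e2] at e1
      have h4 := sg_sq (k := k) p τ
      linear_combination - (sg p τ : k) * e1 - (d1 (unhop p c) τ) * h4)
  refine ⟨hop p (fun τ => - b τ), fun τ h0 => ?_, fun τ hτ => ?_⟩
  · have hp : p ∈ τ := by
      by_contra hn
      exact h0 (by simp [hop, hn])
    obtain ⟨τ0, hp0, rfl⟩ : ∃ τ0, p ∉ τ0 ∧ τ = insert p τ0 :=
      ⟨τ.erase p, Finset.notMem_erase p τ, (Finset.insert_erase hp).symm⟩
    rw [hop_insert hp0] at h0
    have h1 := hb τ0 (neg_ne_zero.mp (right_ne_zero_of_mul h0))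
    exact ⟨(h.iff τ0 hp0).mp h1.1, by rw [Finset.card_insert_of_notMem hp0, h1.2]⟩
  · have hp := h.mem τ hτ
    obtain ⟨τ0, hp0, rfl⟩ : ∃ τ0, p ∉ τ0 ∧ τ = insert p τ0 :=
      ⟨τ.erase p, Finset.notMem_erase p τ, (Finset.insert_erase hp).symm⟩
    have hτ0 := (h.iff τ0 hp0).mpr hτ
    rw [d1_hop_insert hp0]
    have e0 : b (insert p τ0) = 0 := by
      by_contra h0
      exact h.notMem _ (hb _ h0).1 (Finset.mem_insert_self _ _)
    have e3 : d1 (fun τ => - b τ) τ0 = - d1 b τ0 := by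
      have := d1_sub (0 : Finset σ → k) b τ0
      rw [d1_eq_zero 0 τ0 (fun _ _ => rfl), zero_sub, zero_sub] at this
      exact this
    rw [e3, hdb τ0 hτ0, e0]
    simp only [unhop, if_neg hp0]
    have h4 := sg_sq (k := k) p τ0
    linear_combination (c (insert p τ0)) * h4

end Fam

end Pool.Agent.Lib.MP_b26ec7_al
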