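import Pool.Agent.Lib.MP_b26ec7_al.Reg

set_option autoImplicit false

namespace Pool.Agent.Lib.MP_b26ec7_al

open Finset

variable {σ : Type} [LinearOrder σ]

/-- Exponent vectors of products of edges. -/
inductive InG (G : SimpleGraph σ) : (σ → ℤ) → Prop
  | zero : InG G 0
  | add {a : σ → ℤ} {u v : σ} : InG G a → G.Adj u v → InG G (a + ev u + ev v)

variable {G : SimpleGraph σ}

lemma InG.cast {a b : σ → ℤ} (h : InG G a) (e : a = b) : InG G b := e ▸ h

lemma InG.nonneg {a : σ → ℤ} (h : InG G a) : 0 ≤ a := by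
  induction h with
  | zero => exact le_rfl
  | add _ _ ih => exact add_nonneg (add_nonneg ih (ev_nonneg _)) (ev_nonneg _)

lemma InG.plus {a b : σ → ℤ} (ha : InG G a) (hb : InG G b) : InG G (a + b) := by
  induction hb with
  | zero => simpa using ha
  | add _ h ih => exact (ih.add h).cast (by abel)

lemma InG.peel {a : σ → ℤ} (h : InG G a) {u : σ} (hu : 0 < a u) :
    ∃ t, G.Adj u t ∧ InG G (a - ev u - ev t) := by
  induction h with
  | zero => simp at hu
  | @add a p q ha hpq ih =>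
    by_cases h1 : u = p
    · subst h1
      exact ⟨q, hpq, ha.cast (by abel)⟩
    by_cases h2 : u = q
    · subst h2
      exact ⟨p, hpq.symm, ha.cast (by abel)⟩
    · obtain ⟨t, ht, hh⟩ := ih (by simpa [ev_ne h1, ev_ne h2] using hu)
      exact ⟨t, ht, (hh.add hpq).cast (by abel)⟩

lemma ev_le_one (u v : σ) : ev u v ≤ 1 := by
  simp only [ev]; split_ifs <;> simp

lemma ev_ge (u v : σ) : 0 ≤ ev u v := ev_nonneg u v

lemma eq_of_ev_pos {u v : σ} (h : 0 < ev u v) : v = u := by
  by_contra hn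
  rw [ev_ne hn] at h
  exact lt_irrefl _ h

lemma two_tokens {a : σ → ℤ} (ha : InG G a) {u v : σ} (h : InG G (a + ev u + ev v)) :
    G.Adj u v ∨ ∃ y z, G.Adj u y ∧ G.Adj v z ∧ InG G (a - ev y - ev z) := by
  have a0 := ha.nonneg
  obtain ⟨y, hy, h1⟩ := h.peel (u := u) (by
    have := a0 u
    have := ev_ge v u
    simp only [Pi.add_apply, Pi.zero_apply, ev_self] at *
    omega)
  by_cases hv : 0 < (a + ev u + ev v - ev u - ev y) v
  · obtain ⟨z, hz, h2⟩ := h1.peel hv
    exact Or.inr ⟨y, z, hy, hz, h2.cast (by abel)⟩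
  · left
    have h2 := a0 v
    simp only [Pi.add_apply, Pi.sub_apply, Pi.zero_apply, ev_self] at hv h2
    have : v = y := eq_of_ev_pos (by omega)
    exact this ▸ hy

variable [Fintype σ]

theorem exchange_aux (n : ℕ) : ∀ (a g : σ → ℤ) (u : σ), sz g ≤ n → InG G a → InG G g →
    a u < g u → ∃ v, (InG G (a + ev u + ev v) ∧ InG G (g - ev u - ev v) ∧ a v + ev u v < g v) ∨
      (InG G (a + ev u - ev v) ∧ InG G (g - ev u + ev v) ∧ g v < a v) := by
  induction n using Nat.strong_induction_on with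
  | _ n ih =>
  intro a g u hn ha hg hu
  have a0 := ha.nonneg
  obtain ⟨t, hut, hg1⟩ := hg.peel (u := u) (lt_of_le_of_lt (a0 u) hu)
  have htu : t ≠ u := hut.ne'
  by_cases h1 : a t < g t
  · exact ⟨t, Or.inl ⟨ha.add hut, hg1, by rw [ev_ne htu]; simpa using h1⟩⟩
  have hgt : 1 ≤ g t := by
    have := hg1.nonneg t
    simp only [Pi.sub_apply, Pi.zero_apply, ev_self, ev_ne htu] at this
    omega
  obtain ⟨t', htt, ha1⟩ := ha.peel (u := t) (by omega)
  have ht't : t' ≠ t := htt.ne'
  by_cases h2 : g t' < a t'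
  · exact ⟨t', Or.inr ⟨(ha1.add hut).cast (by abel), (hg1.add htt).cast (by abel), h2⟩⟩
  have hsz := sz_nonneg hg1.nonneg
  rw [sz_sub, sz_sub, sz_ev, sz_ev] at hsz
  obtain ⟨v, hv⟩ := ih (n - 1) (by omega) (a - ev t - ev t') (g - ev u - ev t) t'
    (by rw [sz_sub, sz_sub, sz_ev, sz_ev]; omega) ha1 hg1 (by
      simp only [Pi.sub_apply, ev_self, ev_ne ht't]
      by_cases e : t' = u
      · subst e; rw [ev_self]; omega
      · rw [ev_ne e]; omega)
  refine ⟨v, ?_⟩
  rcases hv with ⟨e1, e2, e3⟩ | ⟨e1, e2, e3⟩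
  · refine Or.inl ⟨(e1.add hut).cast (by abel), (e2.add htt).cast (by abel), ?_⟩
    simp only [Pi.sub_apply] at e3
    omega
  · refine Or.inr ⟨(e1.add hut).cast (by abel), (e2.add htt).cast (by abel), ?_⟩
    simp only [Pi.sub_apply] at e3
    have := ev_ge t' v
    by_cases e : v = u
    · subst e; rw [ev_self] at e3; omega
    · rw [ev_ne e] at e3; omega

theorem exchange {a g : σ → ℤ} (u : σ) (ha : InG G a) (hg : InG G g) (hu : a u < g u) :
    ∃ v, (InG G (a + ev u + ev v) ∧ InG G (g - ev u - ev v) ∧ a v + ev u v < g v) ∨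
      (InG G (a + ev u - ev v) ∧ InG G (g - ev u + ev v) ∧ g v < a v) :=
  exchange_aux (sz g).toNat a g u (Int.self_le_toNat _) ha hg hu

/-- The two exchange properties used for the Gallai-Edmonds type decomposition. -/
structure GE (G : SimpleGraph σ) (a a0 : σ → ℤ) : Prop where
  e1 : ∀ S : σ → ℤ, 0 ≤ S → InG G (a0 - S) → ∃ s, 0 < S s ∧ InG G (a0 - ev s)
  e3 : ∀ (S : σ → ℤ) (d : σ), 0 ≤ S → InG G (a - S) → InG G (a0 - ev d) →
    (∃ s, 0 < S s ∧ InG G (a0 - (S - ev s))) ∨ InG G (a0 - S - ev d)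

lemma ge_add {a : σ → ℤ} (ha : InG G a) (x : σ) : GE G a (a + ev x) := by
  refine ⟨fun S hS h => ?_, fun S d hS h hd => ?_⟩
  · by_cases hx : 0 < S x
    · exact ⟨x, hx, ha.cast (by abel)⟩
    · have h0 := hS x
      obtain ⟨v, ⟨_, _, e⟩ | ⟨e1, _, e⟩⟩ := exchange x ha h (by
        simp only [Pi.sub_apply, Pi.add_apply, Pi.zero_apply, ev_self] at *; omega)
      · have := hS v
        simp only [Pi.sub_apply, Pi.add_apply, Pi.zero_apply] at *; omega
      · refine ⟨v, ?_, e1⟩
        have := ev_ge x v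
        simp only [Pi.sub_apply, Pi.add_apply, Pi.zero_apply] at *; omega
  · by_cases hx : d = x
    · subst hx
      exact Or.inr (h.cast (by abel))
    · have h0 := hS x
      obtain ⟨v, ⟨e1, _, e⟩ | ⟨e1, _, e⟩⟩ := exchange x h hd (by
        simp only [Pi.sub_apply, Pi.add_apply, Pi.zero_apply, ev_self, ev_ne (Ne.symm hx)] at *
        omega)
      · refine Or.inl ⟨v, ?_, e1.cast (by abel)⟩
        have := ev_ge d v
        simp only [Pi.sub_apply, Pi.add_apply, Pi.zero_apply] at *; omega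
      · have h1 := hS v
        have h2 := ev_ge x v
        have : v = d := eq_of_ev_pos (by
          simp only [Pi.sub_apply, Pi.add_apply, Pi.zero_apply] at *; omega)
        subst this
        exact Or.inr (e1.cast (by abel))

lemma ge_sub {a : σ → ℤ} (ha : InG G a) (x : σ) : GE G a (a - ev x) := by
  refine ⟨fun S hS h => ?_, fun S d hS h hd => ?_⟩
  · have h0 := hS x
    obtain ⟨v, ⟨_, e1, e⟩ | ⟨_, _, e⟩⟩ := exchange x h ha (by
      simp only [Pi.sub_apply, Pi.zero_apply, ev_self] at *; omega)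
    · refine ⟨v, ?_, e1⟩
      simp only [Pi.sub_apply, Pi.zero_apply] at *; omega
    · have h1 := hS v
      have h2 := ev_ge x v
      simp only [Pi.sub_apply, Pi.zero_apply] at *; omega
  · by_cases hx : 0 < S x
    · exact Or.inl ⟨x, hx, h.cast (by abel)⟩
    · have h0 := hS x
      have h1 := ev_ge d x
      obtain ⟨v, ⟨_, e1, e⟩ | ⟨_, e1, e⟩⟩ := exchange x hd h (by
        simp only [Pi.sub_apply, Pi.zero_apply, ev_self] at *; omega)
      · have h2 := hS v
        have : v = d := eq_of_ev_pos (by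
          simp only [Pi.sub_apply, Pi.zero_apply] at *; omega)
        subst this
        exact Or.inr (e1.cast (by abel))
      · refine Or.inl ⟨v, ?_, e1.cast (by abel)⟩
        have h2 := ev_ge d v
        have h3 := ev_ge x v
        simp only [Pi.sub_apply, Pi.zero_apply] at *; omega

omit [Fintype σ] in
lemma GE.key {a a0 : σ → ℤ} (h : GE G a a0) {S : σ → ℤ} (hS : 0 ≤ S)
    (hSD : ∀ s, 0 < S s → ¬ InG G (a0 - ev s)) {p p' d : σ} (hp : ¬ InG G (a0 - ev p))
    (hpd : G.Adj p d) (hd : InG G (a0 - ev d)) (hin : InG G (a - S - ev p - ev p')) :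
    InG G (a0 - ev p') := by
  have aux : ∀ T : σ → ℤ, 0 ≤ T → T ≤ S + ev p + ev p' → InG G (a0 - T) → InG G (a0 - ev p') := by
    intro T hT hle hT'
    obtain ⟨s, hs, hsD⟩ := h.e1 T hT hT'
    have h1 := hle s
    simp only [Pi.add_apply] at h1
    by_cases c1 : 0 < S s
    · exact absurd hsD (hSD s c1)
    by_cases c2 : 0 < ev p s
    · rw [eq_of_ev_pos c2] at hsD
      exact absurd hsD hp
    · have : s = p' := eq_of_ev_pos (by omega)
      exact this ▸ hsD
  have hS' : 0 ≤ S + ev p + ev p' := add_nonneg (add_nonneg hS (ev_nonneg _)) (ev_nonneg _)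
  rcases h.e3 (S + ev p + ev p') d hS' (hin.cast (by abel)) hd with ⟨s, hs, h1⟩ | h1
  · refine aux _ (fun w => ?_) (sub_le_self _ (ev_nonneg s)) h1
    have := hS' w
    by_cases e : w = s
    · subst e
      simp only [Pi.sub_apply, ev_self, Pi.zero_apply]; omega
    · simpa only [Pi.sub_apply, ev_ne e, sub_zero] using this
  · refine aux (S + ev p') (add_nonneg hS (ev_nonneg _)) (fun w => ?_)
      ((h1.add hpd).cast (by abel))
    have := ev_ge p w
    simp only [Pi.add_apply]; omega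

open Classical in
/-- Restriction of a vector to a set of coordinates. -/
noncomputable def rs (C : Set σ) (a : σ → ℤ) : σ → ℤ := fun v => if v ∈ C then a v else 0

omit [Fintype σ] [LinearOrder σ] in
lemma rs_add (C : Set σ) (a b : σ → ℤ) : rs C (a + b) = rs C a + rs C b := by
  funext v
  simp only [rs, Pi.add_apply]
  split_ifs <;> simp

omit [Fintype σ] [LinearOrder σ] in
lemma rs_sub (C : Set σ) (a b : σ → ℤ) : rs C (a - b) = rs C a - rs C b := by
  funext v
  simp only [rs, Pi.sub_apply]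
  split_ifs <;> simp

omit [Fintype σ] in
lemma rs_ev_mem {C : Set σ} {u : σ} (h : u ∈ C) : rs C (ev u) = ev u := by
  funext v
  simp only [rs]
  split_ifs with h1
  · rfl
  · exact (ev_ne (fun e : v = u => h1 (e ▸ h))).symm

omit [Fintype σ] in
lemma rs_ev_notMem {C : Set σ} {u : σ} (h : u ∉ C) : rs C (ev u) = 0 := by
  funext v
  simp only [rs]
  split_ifs with h1
  · exact ev_ne (fun e : v = u => h (e ▸ h1))
  · rfl

omit [Fintype σ] in
lemma InG.split {g : σ → ℤ} (hg : InG G g) (C : Set σ)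
    (h : ∀ p p', G.Adj p p' → InG G (g - ev p - ev p') → p ∈ C → p' ∈ C) :
    InG G (rs C g) ∧ InG G (g - rs C g) := by
  induction hg with
  | zero =>
    have : rs C (0 : σ → ℤ) = 0 := by funext v; simp [rs]
    rw [this]
    exact ⟨InG.zero, InG.zero.cast (by simp)⟩
  | @add a u v ha huv ih =>
    obtain ⟨i1, i2⟩ := ih (fun p p' h1 h2 => h p p' h1 ((h2.add huv).cast (by abel)))
    rw [rs_add, rs_add]
    by_cases hu : u ∈ C
    · have hv : v ∈ C := h u v huv (ha.cast (by abel)) hu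
      rw [rs_ev_mem hu, rs_ev_mem hv]
      exact ⟨i1.add huv, i2.cast (by abel)⟩
    · have hv : v ∉ C := fun hv => hu (h v u huv.symm (ha.cast (by abel)) hv)
      rw [rs_ev_notMem hu, rs_ev_notMem hv]
      exact ⟨i1.cast (by abel), (i2.add huv).cast (by abel)⟩

/-- Vertices with a neighbour `d` such that `a0 - d` is a product of edges. -/
def ND (G : SimpleGraph σ) (a0 : σ → ℤ) : Set σ := {w | ∃ d, G.Adj w d ∧ InG G (a0 - ev d)}

/-- The perfectly matched part of the decomposition. -/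
def CS (G : SimpleGraph σ) (a0 : σ → ℤ) : Set σ := {w | ¬ InG G (a0 - ev w) ∧ w ∉ ND G a0}

omit [Fintype σ] in
lemma GE.closed {a a0 : σ → ℤ} (h : GE G a a0) {S : σ → ℤ} (hS : 0 ≤ S)
    (hSD : ∀ s, 0 < S s → ¬ InG G (a0 - ev s)) {p p' : σ} (hpp : G.Adj p p')
    (hin : InG G (a - S - ev p - ev p')) (hp : p ∈ CS G a0) : p' ∈ CS G a0 := by
  have h1 : ¬ InG G (a0 - ev p') := fun hh => hp.2 ⟨p', hpp, hh⟩
  refine ⟨h1, ?_⟩
  rintro ⟨d, hd1, hd2⟩
  exact hp.1 (h.key hS hSD h1 hd1 hd2 (hin.cast (by abel)))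

omit [Fintype σ] in
lemma GE.star1 {a a0 : σ → ℤ} (h : GE G a a0) (ha : InG G a) :
    InG G (rs (CS G a0) a) ∧ InG G (a - rs (CS G a0) a) :=
  ha.split _ fun p p' h1 h2 hp =>
    h.closed (S := 0) le_rfl (fun s hs => absurd hs (lt_irrefl _)) h1 (h2.cast (by abel)) hp

omit [Fintype σ] in
lemma GE.star2 {a a0 : σ → ℤ} (h : GE G a a0) (ha : InG G a) {u v : σ} (hu : u ∉ ND G a0)
    (hv : v ∉ ND G a0) : InG G (a + ev u + ev v) ↔ InG G (rs (CS G a0) a + ev u + ev v) := by
  constructor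
  · intro hin
    rcases two_tokens ha hin with h1 | ⟨y, z, hy, hz, h1⟩
    · exact (h.star1 ha).1.add h1
    · have hyD : ¬ InG G (a0 - ev y) := fun hh => hu ⟨y, hy, hh⟩
      have hzD : ¬ InG G (a0 - ev z) := fun hh => hv ⟨z, hz, hh⟩
      have hyC : y ∈ CS G a0 := ⟨hyD, fun ⟨d, hd1, hd2⟩ => hzD
        (h.key (S := 0) le_rfl (fun s hs => absurd hs (lt_irrefl _)) hyD hd1 hd2
          (h1.cast (by abel)))⟩
      have hzC : z ∈ CS G a0 := ⟨hzD, fun ⟨d, hd1, hd2⟩ => hyD
        (h.key (S := 0) le_rfl (fun s hs => absurd hs (lt_irrefl _)) hzD hd1 hd2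
          (h1.cast (by abel)))⟩
      have h2 := (h1.split (CS G a0) fun p p' h1 h2 hp =>
        h.closed (S := ev y + ev z) (add_nonneg (ev_nonneg _) (ev_nonneg _)) (fun s hs => by
          simp only [Pi.add_apply] at hs
          by_cases c : 0 < ev y s
          · rw [eq_of_ev_pos c]; exact hyD
          · have : s = z := eq_of_ev_pos (by omega)
            rw [this]; exact hzD) h1 (h2.cast (by abel)) hp).1
      rw [rs_sub, rs_sub, rs_ev_mem hyC, rs_ev_mem hzC] at h2
      exact ((h2.add hy).add hz).cast (by abel)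
  · intro hin
    exact (hin.plus (h.star1 ha).2).cast (by abel)

end Pool.Agent.Lib.MP_b26ec7_al
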