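import Pool.Agent.Lib.MP_b26ec7_al.Power

set_option autoImplicit false
set_option linter.unusedSectionVars false

namespace Pool.Agent.Lib.MP_b26ec7_al

open Finset MvPolynomial

universe u

variable {σ : Type} [LinearOrder σ] [Fintype σ] {k : Type u} [Field k]

/-- Exponent vector over the integers. -/
def tz (m : σ →₀ ℕ) : σ → ℤ := fun v => m v

/-- Exponent vector over the naturals. -/
noncomputable def tn (c : σ → ℤ) : σ →₀ ℕ := Finsupp.equivFunOnFinite.symm fun v => (c v).toNat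

lemma tn_apply (c : σ → ℤ) (v : σ) : tn c v = (c v).toNat := rfl

lemma tn_tz (m : σ →₀ ℕ) : tn (tz m) = m := by
  ext v; simp [tn_apply, tz]

lemma tz_tn {c : σ → ℤ} (h : 0 ≤ c) : tz (tn c) = c := by
  funext v
  have := h v
  simp only [tz, tn_apply, Pi.zero_apply] at *
  omega

lemma tz_nonneg (m : σ →₀ ℕ) : 0 ≤ tz m := fun v => by simp [tz]

lemma sz_tz (m : σ →₀ ℕ) : sz (tz m) = m.degree := by
  simp [sz, tz, Finsupp.degree_eq_sum]

open Classical in
/-- Coefficient at an integer exponent vector. -/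
noncomputable def cf (c : σ → ℤ) (p : MvPolynomial σ k) : k :=
  if 0 ≤ c then coeff (tn c) p else 0

lemma cf_tz (m : σ →₀ ℕ) (p : MvPolynomial σ k) : cf (tz m) p = coeff m p := by
  simp [cf, tz_nonneg, tn_tz]

lemma cf_ne {c : σ → ℤ} {p : MvPolynomial σ k} (h : cf c p ≠ 0) :
    0 ≤ c ∧ coeff (tn c) p ≠ 0 := by
  unfold cf at h
  split_ifs at h with h1
  · exact ⟨h1, h⟩
  · exact absurd rfl h

lemma cf_X_mul (c : σ → ℤ) (v : σ) (p : MvPolynomial σ k) :
    cf c (X v * p) = cf (c - ev v) p := by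
  unfold cf
  by_cases h : 0 ≤ c
  · rw [if_pos h, coeff_X_mul']
    by_cases hv : 0 < c v
    · have h1 : 0 ≤ c - ev v := sub_nonneg.mpr ((ev_le h).mpr hv)
      rw [if_pos h1, if_pos (by rw [Finsupp.mem_support_iff, tn_apply]; omega)]
      congr 1
      ext w
      simp only [Finsupp.coe_tsub, Pi.sub_apply, tn_apply, Finsupp.single_apply, ev]
      by_cases e : w = v
      · subst e; simp
      · simp [e, Ne.symm e]
    · rw [if_neg (by rw [Finsupp.mem_support_iff, tn_apply]; omega),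
        if_neg (fun h1 => hv ((ev_le h).mp (sub_nonneg.mp h1)))]
  · rw [if_neg h, if_neg (fun h1 => h ((ev_nonneg v).trans (sub_nonneg.mp h1)))]

lemma cf_kd (a : σ → ℤ) (c : Finset σ → MvPolynomial σ k) (τ : Finset σ) :
    cf (a - ind τ) (kd (X : σ → MvPolynomial σ k) c τ)
      = d1 (fun t => cf (a - ind t) (c t)) τ := by
  have hsum : ∀ (x : σ → ℤ) (f : σ → MvPolynomial σ k), cf x (∑ v, f v) = ∑ v, cf x (f v) := by
    intro x f
    unfold cf
    split_ifs
    · rw [coeff_sum]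
    · simp
  rw [d1_apply, kd, hsum]
  refine Finset.sum_congr rfl fun v _ => ?_
  split_ifs with hv
  · simp [cf]
  · rw [ind_insert hv, ← sub_sub, ← cf_X_mul, smul_eq_mul]
    unfold cf
    split_ifs
    · rw [coeff_smul, zsmul_eq_mul]
    · simp

/-- Polynomial valued chains. -/
def Ch1 (E : Set (σ → ℤ)) (i : ℕ) (e : ℤ) (c : Finset σ → MvPolynomial σ k) : Prop :=
  ∀ τ m, coeff m (c τ) ≠ 0 → tz m ∈ E ∧ (m.degree : ℤ) = e ∧ τ.card = i

variable (k) in
/-- Vanishing of Koszul homology of a monomial ideal. -/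
def KV1 (E : Set (σ → ℤ)) (i : ℕ) (j : ℤ) : Prop :=
  ∀ c : Finset σ → MvPolynomial σ k, Ch1 E i (j - i) c → kd (X : σ → MvPolynomial σ k) c = 0 →
    ∃ b : Finset σ → MvPolynomial σ k, Ch1 E (i + 1) (j - i - 1) b ∧
      kd (X : σ → MvPolynomial σ k) b = c

lemma d1_zero_of_notMem {E : Set (σ → ℤ)} (hup : ∀ a b, a ≤ b → a ∈ E → b ∈ E) {a : σ → ℤ}
    {B : Finset σ → k} {i : ℕ} (hB : Supp B (Fam a E) i) {τ : Finset σ} (hτ : τ ∉ Fam a E) :
    d1 B τ = 0 := by
  refine d1_eq_zero B τ fun v _ => ?_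
  by_contra h0
  exact hτ (hup _ _ (sub_le_sub_left (ind_le_insert v τ) a) (hB _ h0).1)

theorem kv1_of_ex {E : Set (σ → ℤ)} (hup : ∀ a b, a ≤ b → a ∈ E → b ∈ E)
    (hnn : ∀ a ∈ E, 0 ≤ a) {i : ℕ} {j : ℤ} (h : ∀ a, sz a = j → Ex k (Fam a E) i) :
    KV1 k E i j := by
  intro c hc hcyc
  have hca : ∀ a τ, cf (a - ind τ) (c τ) ≠ 0 → τ ∈ Fam a E ∧ τ.card = i ∧ sz a = j := by
    intro a τ h0
    obtain ⟨h1, h2⟩ := cf_ne h0
    obtain ⟨h3, h4, h5⟩ := hc τ _ h2
    rw [tz_tn h1] at h3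
    rw [← sz_tz, tz_tn h1, sz_sub, sz_ind] at h4
    exact ⟨h3, h5, by omega⟩
  have key : ∀ a : σ → ℤ, ∃ B : Finset σ → k, Supp B (Fam a E) (i + 1) ∧ (sz a ≠ j → B = 0) ∧
      ∀ τ, d1 B τ = cf (a - ind τ) (c τ) := by
    intro a
    by_cases ha : sz a = j
    · obtain ⟨B, hB, hd⟩ := h a ha (fun τ => cf (a - ind τ) (c τ))
        (fun τ h0 => ⟨(hca a τ h0).1, (hca a τ h0).2.1⟩) (fun τ _ => by
          rw [← cf_kd, hcyc]; simp [cf])
      refine ⟨B, hB, fun hh => absurd ha hh, fun τ => ?_⟩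
      by_cases hτ : τ ∈ Fam a E
      · exact hd τ hτ
      · rw [d1_zero_of_notMem hup hB hτ]
        by_contra h0
        exact hτ (hca a τ (fun e => h0 e.symm)).1
    · refine ⟨0, fun τ h0 => absurd rfl h0, fun _ => rfl, fun τ => ?_⟩
      rw [d1_eq_zero _ τ (fun _ _ => rfl)]
      by_contra h0
      exact ha (hca a τ (fun e => h0 e.symm)).2.2
  choose B hB1 hB2 hB3 using key
  let b : Finset σ → MvPolynomial σ k := fun τ =>
    ∑ m ∈ finsuppAntidiag univ (j - i - 1).toNat, monomial m (B (tz m + ind τ) τ)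
  have hBne : ∀ x τ, B (x + ind τ) τ ≠ 0 → x ∈ E ∧ τ.card = i + 1 ∧ sz x = j - i - 1 := by
    intro x τ h0
    have h1 := hB1 _ τ h0
    have h2 : sz (x + ind τ) = j := by
      by_contra hn
      exact h0 (by rw [hB2 _ hn]; rfl)
    rw [sz_add, sz_ind, h1.2] at h2
    refine ⟨by simpa [Fam] using h1.1, h1.2, by push_cast at h2; omega⟩
  have hb : ∀ τ m, coeff m (b τ) = B (tz m + ind τ) τ := by
    intro τ m
    simp only [b, coeff_sum, coeff_monomial]
    rw [Finset.sum_ite_eq']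
    split_ifs with hm
    · rfl
    · by_contra h0
      apply hm
      have := (hBne _ τ (fun e => h0 e.symm)).2.2
      rw [sz_tz, Finsupp.degree_eq_sum] at this
      rw [Finset.mem_finsuppAntidiag]
      refine ⟨?_, Finset.subset_univ _⟩
      show ∑ v, m v = _
      omega
  have hb' : ∀ τ x, cf x (b τ) = B (x + ind τ) τ := by
    intro τ x
    unfold cf
    split_ifs with hx
    · rw [hb, tz_tn hx]
    · by_contra h0
      exact hx (hnn _ (hBne _ τ (fun e => h0 e.symm)).1)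
  refine ⟨b, fun τ m h0 => ?_, ?_⟩
  · rw [hb] at h0
    obtain ⟨h1, h2, h3⟩ := hBne _ τ h0
    exact ⟨h1, by rwa [sz_tz] at h3, h2⟩
  · funext τ
    ext m
    have e : tz m = (tz m + ind τ) - ind τ := by abel
    rw [← cf_tz, ← cf_tz, e, cf_kd, ← hB3]
    congr 1
    funext t
    rw [hb', sub_add_cancel]

theorem ex_of_kv1 {E : Set (σ → ℤ)} (hup : ∀ a b, a ≤ b → a ∈ E → b ∈ E)
    (hnn : ∀ a ∈ E, 0 ≤ a) {i : ℕ} {a : σ → ℤ} (h : KV1 k E i (sz a)) : Ex k (Fam a E) i := by
  classical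
  intro γ hγ hcyc
  let c : Finset σ → MvPolynomial σ k := fun τ => monomial (tn (a - ind τ)) (γ τ)
  have hc : ∀ x τ, cf (x - ind τ) (c τ) = if x = a then γ τ else 0 := by
    intro x τ
    by_cases h0 : γ τ = 0
    · simp [c, cf, h0]
    have h1 := hnn _ (hγ τ h0).1
    unfold cf
    simp only [c, coeff_monomial]
    by_cases e : x = a
    · subst e
      simp [h1]
    · rw [if_neg e]
      split_ifs with h2 h3
      · exfalso
        apply e
        have := congrArg tz h3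
        rw [tz_tn h1, tz_tn h2] at this
        exact (sub_left_injective this).symm
      · rfl
      · rfl
  obtain ⟨b, hb, hdb⟩ := h c (fun τ m h0 => by
      simp only [c, coeff_monomial] at h0
      split_ifs at h0 with e
      · have h1 := hγ τ h0
        have h2 := hnn _ h1.1
        rw [← e, tz_tn h2, ← sz_tz, tz_tn h2, sz_sub, sz_ind, h1.2]
        exact ⟨h1.1, rfl, rfl⟩
      · exact absurd rfl h0)
    (by
      funext τ
      ext m
      have e : tz m = (tz m + ind τ) - ind τ := by abel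
      rw [← cf_tz, e, cf_kd]
      simp only [hc, Pi.zero_apply, coeff_zero]
      by_cases e1 : tz m + ind τ = a
      · simp only [if_pos e1]
        by_cases hτ : τ ∈ Fam a E
        · exact hcyc τ hτ
        · exact d1_zero_of_notMem hup hγ hτ
      · simp only [if_neg e1]
        exact d1_eq_zero _ τ (fun _ _ => rfl))
  refine ⟨fun τ => cf (a - ind τ) (b τ), fun τ h0 => ?_, fun τ _ => ?_⟩
  · obtain ⟨h1, h2⟩ := cf_ne h0
    obtain ⟨h3, _, h5⟩ := hb τ _ h2
    rw [tz_tn h1] at h3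
    exact ⟨h3, h5⟩
  · rw [← cf_kd, hdb, hc, if_pos rfl]

lemma ex_nonneg {a : σ → ℤ} {i : ℕ} (h : 0 < i ∨ 0 < sz a) :
    Ex k (Fam a {c : σ → ℤ | 0 ≤ c}) i := by
  by_cases hp : ∃ p, 0 < a p
  · obtain ⟨p, hp⟩ := hp
    refine ex_cone p (fun τ hτ => ?_) i
    simp only [Fam, Set.mem_ofPred_eq, ind_insert hτ]
    constructor
    · intro h w
      have := h w
      simp only [Pi.sub_apply, Pi.add_apply, Pi.zero_apply, ev, ind] at this hp ⊢
      by_cases hw : w = p
      · subst hw; simp [hτ]; omega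
      · simpa [hw] using this
    · intro h w
      have h1 := h w
      have h2 := ev_nonneg p w
      simp only [Pi.sub_apply, Pi.add_apply, Pi.zero_apply] at h1 h2 ⊢
      omega
  · push Not at hp
    have h1 : sz a ≤ 0 := by
      rw [← sz_zero (σ := σ)]
      exact sz_mono hp
    intro c hc _
    refine ⟨0, fun τ h0 => absurd rfl h0, fun τ hτ => ?_⟩
    rw [d1_eq_zero _ τ (fun _ _ => rfl)]
    by_contra h0
    have h2 := (hc τ (fun e => h0 e.symm)).2
    have h3 := sz_nonneg hτ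
    rw [sz_sub, sz_ind] at h3
    omega

theorem kv1_top {i : ℕ} {j : ℤ} (h : 0 < i ∨ 0 < j) : KV1 k {c : σ → ℤ | 0 ≤ c} i j :=
  kv1_of_ex (fun _ _ hab ha => le_trans ha hab) (fun _ ha => ha)
    fun _ ha => ex_nonneg (by rwa [ha])

end Pool.Agent.Lib.MP_b26ec7_al
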