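import Pool.Agent.Lib.MP_b26ec7_al.Colon

set_option autoImplicit false
set_option linter.unusedSectionVars false

namespace Pool.Agent.Lib.MP_b26ec7_al

open Finset

universe u

variable {σ : Type} [LinearOrder σ] [Fintype σ] {G : SimpleGraph σ}

/-- Exponents of the monomials in the `q`-th power of the edge ideal. -/
def Pw (G : SimpleGraph σ) (q : ℕ) : Set (σ → ℤ) := {c | ∃ g, InG G g ∧ sz g = 2 * q ∧ g ≤ c}

/-- Standard monomials of the `q`-th power of the edge ideal. -/
def Co (G : SimpleGraph σ) (q : ℕ) : Set (σ → ℤ) := {c | 0 ≤ c ∧ c ∉ Pw G q}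

/-- One-sided distance. -/
def dst (a g : σ → ℤ) : ℤ := ∑ v, max (g v - a v) 0

lemma dst_nonneg (a g : σ → ℤ) : 0 ≤ dst a g := Finset.sum_nonneg fun _ _ => le_max_right _ _

lemma dst_lt {a g : σ → ℤ} {u v : σ} (hu : a u < g u) (hv : g v < a v) :
    dst a (g - ev u + ev v) < dst a g := by
  have huv : u ≠ v := fun e => by subst e; omega
  refine Finset.sum_lt_sum (fun w _ => ?_) ⟨u, Finset.mem_univ _, ?_⟩
  · simp only [Pi.add_apply, Pi.sub_apply]
    have := ev_ge u w
    by_cases e : w = v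
    · subst e; rw [ev_self]; omega
    · rw [ev_ne e]; omega
  · simp only [Pi.add_apply, Pi.sub_apply, ev_self, ev_ne huv]
    omega

lemma step_le {a g b : σ → ℤ} (hb : 0 ≤ b) (h : g ≤ a + b) {u v : σ} (hv : g v < a v) :
    g - ev u + ev v ≤ a + b := by
  intro w
  have h1 := h w
  have h2 := ev_ge u w
  have h3 := hb w
  simp only [Pi.add_apply, Pi.sub_apply, Pi.zero_apply] at *
  by_cases e : w = v
  · subst e; rw [ev_self]; omega
  · rw [ev_ne e]; omega

lemma pair_le' {a g b : σ → ℤ} (hb : 0 ≤ b) (h : g ≤ a + b) {u v : σ} (hu : a u < g u)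
    (hv : a v + ev u v < g v) : ev u + ev v ≤ b := by
  intro w
  have h1 := h w
  have h3 := hb w
  simp only [Pi.add_apply, Pi.zero_apply] at *
  by_cases e : w = v
  · subst e; rw [ev_self]; omega
  · rw [ev_ne e]
    by_cases e' : w = u
    · subst e'; rw [ev_self]; omega
    · rw [ev_ne e']; omega

lemma factQ_aux {a b : σ → ℤ} (ha : InG G a) (hb : 0 ≤ b) (n : ℕ) : ∀ g, dst a g < n → InG G g →
    sz a < sz g → g ≤ a + b → ∃ u v, ev u + ev v ≤ b ∧ InG G (a + ev u + ev v) := by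
  induction n with
  | zero => intro g h; have := dst_nonneg a g; omega
  | succ n ih =>
    intro g hn hg hsz hle
    obtain ⟨u, hu⟩ := exists_lt_of_sz_lt hsz
    obtain ⟨v, ⟨h1, _, h3⟩ | ⟨_, h2, h3⟩⟩ := exchange u ha hg hu
    · exact ⟨u, v, pair_le' hb hle hu h3, h1⟩
    · have := dst_lt hu h3
      exact ih _ (by omega) h2 (by rw [sz_add, sz_sub, sz_ev, sz_ev]; omega) (step_le hb hle h3)

lemma mem_Pw_succ {a b : σ → ℤ} {s : ℕ} (ha : InG G a) (hs : sz a = 2 * s) (hb : 0 ≤ b) :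
    a + b ∈ Pw G (s + 1) ↔ ∃ u v, ev u + ev v ≤ b ∧ InG G (a + ev u + ev v) := by
  constructor
  · rintro ⟨g, hg, h1, h2⟩
    exact factQ_aux ha hb ((dst a g).toNat + 1) g (by push_cast; omega) hg
      (by push_cast at h1; omega) h2
  · rintro ⟨u, v, h1, h2⟩
    refine ⟨_, h2, by rw [sz_add, sz_add, sz_ev, sz_ev]; push_cast; omega, ?_⟩
    rw [add_assoc]
    exact add_le_add le_rfl h1

/-- A linear weight. -/
def wt (w c : σ → ℤ) : ℤ := ∑ v, w v * c v

lemma wt_step (w c : σ → ℤ) (u v : σ) : wt w (c - ev u + ev v) = wt w c - w u + w v := by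
  simp [wt, ev, mul_add, mul_sub, Finset.sum_add_distrib, Finset.sum_sub_distrib]

lemma order_aux {a b : σ → ℤ} (w : σ → ℤ) (hw : Function.Injective w) (ha : InG G a) (hb : 0 ≤ b)
    (n : ℕ) : ∀ g, dst a g < n → InG G g → sz a = sz g → g ≠ a → wt w a ≤ wt w g → g ≤ a + b →
    (∃ u v, ev u + ev v ≤ b ∧ InG G (a + ev u + ev v)) ∨
      ∃ u v, 0 < b u ∧ w v < w u ∧ InG G (a - ev v + ev u) := by
  induction n with
  | zero => intro g h; have := dst_nonneg a g; omega
  | succ n ih =>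
    intro g hn hg hsz hne hwt hle
    obtain ⟨u, hu⟩ : ∃ u, a u < g u := by
      by_contra hcon
      push Not at hcon
      obtain ⟨t, ht⟩ : ∃ t, g t < a t := by
        by_contra hc2
        push Not at hc2
        exact hne (le_antisymm hcon hc2)
      have : sz g < sz a := Finset.sum_lt_sum (fun v _ => hcon v) ⟨t, Finset.mem_univ _, ht⟩
      omega
    obtain ⟨v, ⟨h1, _, h3⟩ | ⟨h1, h2, h3⟩⟩ := exchange u ha hg hu
    · exact Or.inl ⟨u, v, pair_le' hb hle hu h3, h1⟩
    · by_cases hc : w v < w u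
      · refine Or.inr ⟨u, v, ?_, hc, h1.cast (by abel)⟩
        have := hle u
        simp only [Pi.add_apply] at this
        omega
      · have huv : u ≠ v := fun e => by subst e; omega
        have hlt : w u < w v := lt_of_le_of_ne (not_lt.mp hc) (fun e => huv (hw e))
        have h4 := dst_lt hu h3
        have h5 := wt_step w g u v
        refine ih _ (by omega) h2 (by rw [sz_add, sz_sub, sz_ev, sz_ev]; omega) (fun e => ?_)
          (by omega) (step_le hb hle h3)
        rw [e] at h5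
        omega

lemma finite_gens (s : ℕ) : {g : σ → ℤ | InG G g ∧ sz g = 2 * s}.Finite := by
  refine (Set.finite_Icc (0 : σ → ℤ) (fun _ => 2 * (s : ℤ))).subset ?_
  rintro g ⟨h1, h2⟩
  refine ⟨h1.nonneg, fun v => ?_⟩
  have := Finset.single_le_sum (f := g) (fun w _ => h1.nonneg w) (Finset.mem_univ v)
  show g v ≤ 2 * (s : ℤ)
  rw [← h2]
  exact this

lemma Pw_up {q : ℕ} {a b : σ → ℤ} (hab : a ≤ b) (h : a ∈ Pw G q) : b ∈ Pw G q := by
  obtain ⟨g, h1, h2, h3⟩ := h
  exact ⟨g, h1, h2, h3.trans hab⟩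

lemma Pw_succ_subset {q : ℕ} {a : σ → ℤ} (h : a ∈ Pw G (q + 1)) : a ∈ Pw G q := by
  obtain ⟨g, h1, h2, h3⟩ := h
  obtain ⟨u, hu⟩ := exists_lt_of_sz_lt (a := 0) (b := g) (by rw [sz_zero, h2]; push_cast; omega)
  obtain ⟨t, _, h4⟩ := h1.peel hu
  refine ⟨_, h4, by rw [sz_sub, sz_sub, sz_ev, sz_ev, h2]; push_cast; ring, ?_⟩
  exact ((sub_le_self _ (ev_nonneg t)).trans (sub_le_self _ (ev_nonneg u))).trans h3

variable {k : Type u} [Field k]

theorem power_step {r : ℤ} (h : Rg k (St G univ 0) r) (s : ℕ) (hs : Rg k (Co G s) (r + 2 * s)) :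
    Rg k (Co G (s + 1)) (r + 2 * s) := by
  classical
  obtain ⟨w, hw⟩ : ∃ w : σ → ℤ, Function.Injective w :=
    ⟨fun v => ((Fintype.equivFin σ v : ℕ) : ℤ), fun u v e =>
      (Fintype.equivFin σ).injective (Fin.ext (by simpa using e))⟩
  have key : ∀ (n : ℕ) (S : Finset (σ → ℤ)), S.card = n → (∀ g ∈ S, InG G g ∧ sz g = 2 * s) →
      (∀ g ∈ S, ∀ g', InG G g' → sz g' = 2 * s → wt w g < wt w g' → g' ∈ S) →
      Rg k {c | c ∈ Co G (s + 1) ∧ ∀ g ∈ S, ¬ g ≤ c} (r + 2 * s) →
      Rg k (Co G (s + 1)) (r + 2 * s) := by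
    intro n
    induction n with
    | zero =>
      intro S hS _ _ h1
      rw [Finset.card_eq_zero.mp hS] at h1
      simpa using h1
    | succ n ih =>
      intro S hS hin hup h1
      obtain ⟨a, haS, hmin⟩ := Finset.exists_min_image S (wt w)
        (Finset.card_pos.mp (by omega))
      obtain ⟨ha, hsa⟩ := hin a haS
      refine ih (S.erase a) (by rw [Finset.card_erase_of_mem haS]; omega)
        (fun g hg => hin g (Finset.mem_of_mem_erase hg)) (fun g hg g' h2 h3 h4 => ?_) ?_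
      · have hgS := Finset.mem_of_mem_erase hg
        refine Finset.mem_erase.mpr ⟨fun e => ?_, hup g hgS g' h2 h3 h4⟩
        have := hmin g hgS
        rw [e] at h4
        omega
      have hstd : Std {c | c ∈ Co G (s + 1) ∧ ∀ g ∈ S.erase a, ¬ g ≤ c} :=
        ⟨fun c hc => hc.1.1, fun x y h0 hxy hy => And.intro
          (And.intro h0 fun hh => hy.1.2 (Pw_up hxy hh)) fun g hg hh => hy.2 g hg (hh.trans hxy)⟩
      refine rg_colon hstd a ?_ ?_
      · have e : {b | 0 ≤ b ∧ a + b ∈ {c | c ∈ Co G (s + 1) ∧ ∀ g ∈ S.erase a, ¬ g ≤ c}}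
            = St G (univ.filter (fun u => ∀ v, a - ev v + ev u ∉ S.erase a)) a := by
          ext b
          constructor
          · rintro ⟨hb, ⟨_, h2⟩, h3⟩
            refine ⟨hb, fun u hu => Finset.mem_filter.mpr ⟨Finset.mem_univ _, fun v hv => ?_⟩,
              fun u v huv hh => h2 ((mem_Pw_succ ha hsa hb).mpr ⟨u, v, huv, hh⟩)⟩
            exact h3 _ hv (add_le_add (sub_le_self _ (ev_nonneg v)) ((ev_le hb).mpr hu))
          · rintro ⟨hb, h2, h3⟩
            refine ⟨hb, ⟨add_nonneg ha.nonneg hb, fun hh => ?_⟩, fun g hg hle => ?_⟩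
            · obtain ⟨u, v, h4, h5⟩ := (mem_Pw_succ ha hsa hb).mp hh
              exact h3 u v h4 h5
            · have hgS := Finset.mem_of_mem_erase hg
              obtain ⟨hg1, hg2⟩ := hin g hgS
              rcases order_aux w hw ha hb ((dst a g).toNat + 1) g (by push_cast; omega) hg1
                (by omega) (Finset.mem_erase.mp hg).1 (hmin g hgS) hle with
                ⟨u, v, h4, h5⟩ | ⟨u, v, h4, h5, h6⟩
              · exact h3 u v h4 h5
              · have h7 := wt_step w a v u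
                refine (Finset.mem_filter.mp (h2 u h4)).2 v (Finset.mem_erase.mpr
                  ⟨fun e => ?_, hup a haS _ h6 (by rw [sz_add, sz_sub, sz_ev, sz_ev]; omega)
                    (by omega)⟩)
                rw [e] at h7
                omega
        rw [e, hsa, add_sub_cancel_right]
        exact colon_reg h _ ha
      · have e : {c | c ∈ {c | c ∈ Co G (s + 1) ∧ ∀ g ∈ S.erase a, ¬ g ≤ c} ∧ ¬ a ≤ c}
            = {c | c ∈ Co G (s + 1) ∧ ∀ g ∈ S, ¬ g ≤ c} := by
          ext c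
          constructor
          · rintro ⟨⟨h2, h3⟩, h4⟩
            refine ⟨h2, fun g hg => ?_⟩
            by_cases e : g = a
            · exact e ▸ h4
            · exact h3 g (Finset.mem_erase.mpr ⟨e, hg⟩)
          · rintro ⟨h2, h3⟩
            exact ⟨⟨h2, fun g hg => h3 g (Finset.mem_of_mem_erase hg)⟩, h3 a haS⟩
        rw [e]
        exact h1
  refine key _ (finite_gens (G := G) s).toFinset rfl (fun g hg => by simpa using hg)
    (fun g _ g' h1 h2 _ => by simpa using ⟨h1, h2⟩) ?_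
  have e : {c | c ∈ Co G (s + 1) ∧ ∀ g ∈ (finite_gens (G := G) s).toFinset, ¬ g ≤ c}
      = Co G s := by
    ext c
    constructor
    · rintro ⟨h1, h2⟩
      refine ⟨h1.1, ?_⟩
      rintro ⟨g, h3, h4, h5⟩
      exact h2 g (by simpa using ⟨h3, h4⟩) h5
    · rintro ⟨h1, h2⟩
      refine ⟨⟨h1, fun hh => h2 (Pw_succ_subset hh)⟩, fun g hg hle => h2 ⟨g, ?_, ?_, hle⟩⟩
      · exact (by simpa using hg : InG G g ∧ sz g = 2 * s).1
      · exact (by simpa using hg : InG G g ∧ sz g = 2 * s).2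
  rw [e]
  exact hs

lemma Co_one : Co G 1 = St G univ 0 := by
  ext c
  constructor
  · rintro ⟨h1, h2⟩
    refine ⟨h1, fun _ _ => Finset.mem_univ _, fun u v huv hh => h2 ?_⟩
    have := (mem_Pw_succ (G := G) (s := 0) InG.zero (by simp [sz_zero]) h1).mpr ⟨u, v, huv, hh⟩
    simpa using this
  · rintro ⟨h1, _, h3⟩
    refine ⟨h1, fun hh => ?_⟩
    obtain ⟨u, v, h4, h5⟩ := (mem_Pw_succ (G := G) (s := 0) InG.zero (by simp [sz_zero]) h1).mp
      (by simpa using hh)
    exact h3 u v h4 h5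

theorem power_co {r : ℤ} (h : Rg k (Co G 1) r) (s : ℕ) : Rg k (Co G (s + 1)) (r + 2 * s) := by
  induction s with
  | zero => simpa using h
  | succ s ih =>
    exact power_step (Co_one (G := G) ▸ h) (s + 1) (ih.mono (by push_cast; omega))

lemma mses_Pw (q : ℕ) : MSES (Pw G q) {c | 0 ≤ c} (Co G q) := by
  refine ⟨fun a b c hab _ ha _ => le_trans ha hab, fun a => ?_, fun a h1 h2 => h2.2 h1,
    fun a b hab ha _ => Pw_up hab ha⟩
  constructor
  · intro h
    by_cases h1 : a ∈ Pw G q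
    · exact Or.inl h1
    · exact Or.inr ⟨h, h1⟩
  · rintro (⟨g, h1, _, h3⟩ | h)
    · exact h1.nonneg.trans h3
    · exact h.1

lemma two_le_of_rg {ρ : ℤ} (h : Rg k (Pw G 1) ρ) {u v : σ} (huv : G.Adj u v) : 2 ≤ ρ := by
  classical
  by_contra hlt
  have h1 := h (ev u + ev v) 0 (by rw [sz_add, sz_ev, sz_ev]; push_cast; omega)
  have hmem : (∅ : Finset σ) ∈ Fam (ev u + ev v) (Pw G 1) := by
    refine ⟨0 + ev u + ev v, InG.zero.add huv, by
      rw [sz_add, sz_add, sz_ev, sz_ev, sz_zero]; norm_num, ?_⟩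
    intro w
    simp [ind]
  obtain ⟨b, hb, hdb⟩ := h1 (fun τ => if τ = ∅ then 1 else 0) (fun τ h0 => by
      have : τ = ∅ := by
        by_contra hn
        simp [hn] at h0
      subst this
      exact ⟨hmem, rfl⟩)
    (fun τ _ => d1_eq_zero _ τ fun v _ => by simp)
  have h2 := hdb ∅ hmem
  rw [d1_eq_zero b ∅ fun t _ => ?_] at h2
  · simp at h2
  · by_contra h0
    obtain ⟨⟨g, _, h4, h5⟩, _⟩ := hb _ h0
    have := sz_mono h5
    rw [sz_sub, sz_add, sz_ev, sz_ev, sz_ind, h4] at this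
    simp at this

/-- The combinatorial form of the main theorem. -/
theorem power_reg {ρ : ℤ} (h : Rg k (Pw G 1) ρ) {u v : σ} (huv : G.Adj u v) (s : ℕ) :
    Rg k (Pw G (s + 1)) (ρ + 2 * s) := by
  have h2 := two_le_of_rg h huv
  have h3 : Rg k (Co G 1) (ρ - 1) :=
    (mses_Pw 1).quot (rg_nonneg.mono (by omega)) (by simpa using h)
  refine (mses_Pw (s + 1)).sub ((power_co h3 s).mono (by omega)) (rg_nonneg.mono (by omega))

theorem rg_card : Rg k (Pw G 1) (Fintype.card σ) := by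
  intro a i hi
  obtain ⟨p, hp⟩ := exists_lt_of_sz_lt (a := ind univ) (b := a) (by
    rw [sz_ind, Finset.card_univ]; omega)
  simp only [ind, Finset.mem_univ, if_true] at hp
  refine ex_cone p (fun τ hτ => ?_) i
  refine ⟨fun h => ?_, fun h => Pw_up (sub_le_sub_left (ind_le_insert p τ) a) h⟩
  have h0 : 0 ≤ a - ind τ := by
    obtain ⟨g, h1, _, h3⟩ := h
    exact h1.nonneg.trans h3
  have hp' : ((a - ind τ) p) = a p := by simp [ind, hτ]
  have h0' : 0 ≤ a - ind (insert p τ) := by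
    rw [ind_insert hτ, ← sub_sub, sub_nonneg, ev_le h0]
    omega
  obtain ⟨x, y, h4, h5⟩ := (mem_Pw_succ (G := G) (s := 0) InG.zero (by simp [sz_zero]) h0).mp
    (by simpa [Fam] using h)
  have hxy := inG_two.mp h5
  have aux : ∀ z, 0 < (a - ind τ) z → 0 < (a - ind (insert p τ)) z := by
    intro z hz
    rw [ind_insert hτ, ← sub_sub]
    by_cases e : z = p
    · subst e
      rw [Pi.sub_apply, ev_self]; omega
    · rw [Pi.sub_apply, ev_ne e]; omega
  have := (mem_Pw_succ (G := G) (s := 0) InG.zero (by simp [sz_zero]) h0').mpr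
    ⟨x, y, pair_le h0' hxy.ne (aux x (pos_left h4)) (aux y (pos_right h4)), h5⟩
  simpa [Fam] using this

end Pool.Agent.Lib.MP_b26ec7_al
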