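import Pool.Agent.Lib.MP_b26ec7_al.Poly

set_option autoImplicit false
set_option linter.unusedSectionVars false

namespace Pool.Agent.Lib.MP_b26ec7_al

open Finset MvPolynomial

universe u

variable {σ : Type} [LinearOrder σ] [Fintype σ] {k : Type u} [Field k]
variable {ι κ : Type} [Fintype κ]

/-- Homogeneous elements of a graded free module. -/
def Hg (deg : ι → ℕ) (e : ℤ) (z : ι → MvPolynomial σ k) : Prop :=
  ∀ b m, coeff m (z b) ≠ 0 → (m.degree : ℤ) + deg b = e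

/-- Homogeneous matrices. -/
def MH (dι : ι → ℕ) (dκ : κ → ℕ) (φ : Matrix ι κ (MvPolynomial σ k)) : Prop :=
  ∀ a b m, coeff m (φ a b) ≠ 0 → m.degree + dι a = dκ b

/-- Homogeneous component. -/
noncomputable def pj (deg : ι → ℕ) (e : ℤ) (f : ι → MvPolynomial σ k) : ι → MvPolynomial σ k :=
  fun b => ∑ m ∈ (f b).support with (m.degree : ℤ) + deg b = e, monomial m (coeff m (f b))

lemma coeff_pj (deg : ι → ℕ) (e : ℤ) (f : ι → MvPolynomial σ k) (b : ι) (m : σ →₀ ℕ) :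
    coeff m (pj deg e f b) = if (m.degree : ℤ) + deg b = e then coeff m (f b) else 0 := by
  simp only [pj, coeff_sum, coeff_monomial]
  rw [Finset.sum_ite_eq']
  by_cases h1 : coeff m (f b) = 0 <;> simp [h1]

lemma hg_pj (deg : ι → ℕ) (e : ℤ) (f : ι → MvPolynomial σ k) : Hg deg e (pj deg e f) := by
  intro b m h
  rw [coeff_pj] at h
  by_contra hn
  exact h (if_neg hn)

lemma pj_of_hg {deg : ι → ℕ} {e : ℤ} {f : ι → MvPolynomial σ k} (h : Hg deg e f) :
    pj deg e f = f := by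
  funext b
  ext m
  rw [coeff_pj]
  split_ifs with h1
  · rfl
  · by_contra h0
    exact h1 (h b m (fun e => h0 e.symm))

lemma mulVec_pj {dι : ι → ℕ} {dκ : κ → ℕ} {φ : Matrix ι κ (MvPolynomial σ k)} (h : MH dι dκ φ)
    (e : ℤ) (f : κ → MvPolynomial σ k) : φ.mulVec (pj dκ e f) = pj dι e (φ.mulVec f) := by
  funext a
  ext m
  rw [coeff_pj]
  simp only [Matrix.mulVec, dotProduct, coeff_sum, coeff_mul, coeff_pj]
  have key : ∀ b, ∀ x ∈ HasAntidiagonal.antidiagonal m, coeff x.1 (φ a b) ≠ 0 →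
      ((x.2.degree : ℤ) + dκ b = e ↔ (m.degree : ℤ) + dι a = e) := by
    intro b x hx h0
    have h1 := h a b _ h0
    have h2 : m.degree = x.1.degree + x.2.degree := by
      rw [← map_add, HasAntidiagonal.mem_antidiagonal.mp hx]
    constructor <;> intro <;> omega
  split_ifs with h1
  · refine Finset.sum_congr rfl fun b _ => Finset.sum_congr rfl fun x hx => ?_
    by_cases h0 : coeff x.1 (φ a b) = 0
    · simp [h0]
    · rw [if_pos ((key b x hx h0).mpr h1)]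
  · refine Finset.sum_eq_zero fun b _ => Finset.sum_eq_zero fun x hx => ?_
    by_cases h0 : coeff x.1 (φ a b) = 0
    · simp [h0]
    · rw [if_neg (fun hh => h1 ((key b x hx h0).mp hh)), mul_zero]

lemma hg_mulVec {dι : ι → ℕ} {dκ : κ → ℕ} {φ : Matrix ι κ (MvPolynomial σ k)} (h : MH dι dκ φ)
    {e : ℤ} {f : κ → MvPolynomial σ k} (hf : Hg dκ e f) : Hg dι e (φ.mulVec f) := by
  rw [← pj_of_hg hf, mulVec_pj h]
  exact hg_pj _ _ _

lemma Hg.sub {deg : ι → ℕ} {e : ℤ} {f g : ι → MvPolynomial σ k} (hf : Hg deg e f)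
    (hg : Hg deg e g) : Hg deg e (f - g) := by
  intro b m h
  simp only [Pi.sub_apply, coeff_sub] at h
  by_cases h0 : coeff m (f b) = 0
  · exact hg b m (fun e => h (by rw [h0, e, sub_zero]))
  · exact hf b m h0

/-- Homogeneous Koszul chains with values in `Z`. -/
def Ch (Z : Submodule (MvPolynomial σ k) (ι → MvPolynomial σ k)) (deg : ι → ℕ) (i : ℕ) (e : ℤ)
    (c : Finset σ → ι → MvPolynomial σ k) : Prop :=
  ∀ τ, c τ ∈ Z ∧ Hg deg e (c τ) ∧ (τ.card ≠ i → c τ = 0)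

/-- Vanishing of Koszul homology of `Z` in homological degree `i` and internal degree `j`. -/
def KV (Z : Submodule (MvPolynomial σ k) (ι → MvPolynomial σ k)) (deg : ι → ℕ) (i : ℕ) (j : ℤ) :
    Prop :=
  ∀ c, Ch Z deg i (j - i) c → kd (X : σ → MvPolynomial σ k) c = 0 →
    ∃ b, Ch Z deg (i + 1) (j - i - 1) b ∧ kd (X : σ → MvPolynomial σ k) b = c

lemma kd_apply (c : Finset σ → ι → MvPolynomial σ k) (τ : Finset σ) (b : ι) :
    kd (X : σ → MvPolynomial σ k) c τ b = kd (X : σ → MvPolynomial σ k) (fun t => c t b) τ :=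
  (kd_map (X : σ → MvPolynomial σ k)
    (LinearMap.proj b : (ι → MvPolynomial σ k) →ₗ[MvPolynomial σ k] MvPolynomial σ k) c τ).symm

lemma kd_mulVec (φ : Matrix ι κ (MvPolynomial σ k)) (c : Finset σ → κ → MvPolynomial σ k)
    (τ : Finset σ) : kd (X : σ → MvPolynomial σ k) (fun t => φ.mulVec (c t)) τ
      = φ.mulVec (kd (X : σ → MvPolynomial σ k) c τ) :=
  kd_map (X : σ → MvPolynomial σ k) φ.mulVecLin c τ

lemma Ch.kd {Z : Submodule (MvPolynomial σ k) (ι → MvPolynomial σ k)} {deg : ι → ℕ} {i : ℕ}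
    {e : ℤ} {c : Finset σ → ι → MvPolynomial σ k} (h : Ch Z deg (i + 1) e c) :
    Ch Z deg i (e + 1) (kd (X : σ → MvPolynomial σ k) c) := by
  intro τ
  refine ⟨?_, fun b m h0 => ?_, fun hτ => kd_eq_zero _ c τ fun v hv => (h _).2.2 ?_⟩
  · refine Z.sum_mem fun v _ => ?_
    split_ifs
    · exact Z.zero_mem
    · exact zsmul_mem (Z.smul_mem _ (h _).1) _
  · have e1 : tz m = (tz m + ind τ) - ind τ := by abel
    rw [kd_apply, ← cf_tz, e1, cf_kd] at h0
    by_contra hn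
    refine h0 (d1_eq_zero _ τ fun v hv => ?_)
    by_contra h1
    obtain ⟨h2, h3⟩ := cf_ne h1
    have h4 := (h _).2.1 b _ h3
    rw [← sz_tz, tz_tn h2, ind_insert hv, sz_sub, sz_add, sz_add, sz_ev, sz_tz] at h4
    omega
  · rw [Finset.card_insert_of_notMem hv]; omega

lemma Ch.sub {Z Z' Z'' : Submodule (MvPolynomial σ k) (ι → MvPolynomial σ k)} {deg : ι → ℕ}
    {i : ℕ} {e : ℤ} {c c' : Finset σ → ι → MvPolynomial σ k} (h : Ch Z deg i e c)
    (h' : Ch Z' deg i e c') (hZ : ∀ τ, c τ - c' τ ∈ Z'') : Ch Z'' deg i e (c - c') :=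
  fun τ => ⟨hZ τ, (h τ).2.1.sub (h' τ).2.1, fun hτ => by
    rw [Pi.sub_apply, (h τ).2.2 hτ, (h' τ).2.2 hτ, sub_zero]⟩

lemma Ch.map {Z : Submodule (MvPolynomial σ k) (κ → MvPolynomial σ k)}
    {Z' : Submodule (MvPolynomial σ k) (ι → MvPolynomial σ k)} {dι : ι → ℕ} {dκ : κ → ℕ}
    {φ : Matrix ι κ (MvPolynomial σ k)} (hφ : MH dι dκ φ) (hZ' : ∀ f, φ.mulVec f ∈ Z')
    {i : ℕ} {e : ℤ} {c : Finset σ → κ → MvPolynomial σ k} (h : Ch Z dκ i e c) :
    Ch Z' dι i e (fun t => φ.mulVec (c t)) :=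
  fun τ => ⟨hZ' _, hg_mulVec hφ (h τ).2.1, fun hτ => by
    simp only [(h τ).2.2 hτ, Matrix.mulVec_zero]⟩

lemma Ch.lift {Z' : Submodule (MvPolynomial σ k) (ι → MvPolynomial σ k)} {dι : ι → ℕ}
    {dκ : κ → ℕ} {φ : Matrix ι κ (MvPolynomial σ k)} (hφ : MH dι dκ φ)
    (hZ' : ∀ z ∈ Z', ∃ f, φ.mulVec f = z) {i : ℕ} {e : ℤ}
    {c : Finset σ → ι → MvPolynomial σ k} (h : Ch Z' dι i e c) :
    ∃ c', Ch ⊤ dκ i e c' ∧ ∀ τ, φ.mulVec (c' τ) = c τ := by
  have : ∀ τ : Finset σ, ∃ f, Hg dκ e f ∧ (τ.card ≠ i → f = 0) ∧ φ.mulVec f = c τ := by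
    intro τ
    by_cases hτ : τ.card = i
    · obtain ⟨f, hf⟩ := hZ' _ (h τ).1
      exact ⟨pj dκ e f, hg_pj _ _ _, fun hh => absurd hτ hh, by
        rw [mulVec_pj hφ, hf, pj_of_hg (h τ).2.1]⟩
    · exact ⟨0, fun b m h0 => absurd (by simp) h0, fun _ => rfl, by
        rw [Matrix.mulVec_zero, (h τ).2.2 hτ]⟩
  choose c' h1 h2 h3 using this
  exact ⟨c', fun τ => ⟨Submodule.mem_top, h1 τ, h2 τ⟩, h3⟩

theorem free_exact {Z : Submodule (MvPolynomial σ k) (ι → MvPolynomial σ k)} {deg : ι → ℕ}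
    {i : ℕ} {e : ℤ} {c : Finset σ → ι → MvPolynomial σ k} (h : Ch Z deg i e c)
    (hc : kd (X : σ → MvPolynomial σ k) c = 0) (h0 : ∀ b, coeff 0 (c ∅ b) = 0) :
    ∃ B, Ch ⊤ deg (i + 1) (e - 1) B ∧ kd (X : σ → MvPolynomial σ k) B = c := by
  have key : ∀ b, ∃ B : Finset σ → MvPolynomial σ k,
      Ch1 {c : σ → ℤ | 0 ≤ c} (i + 1) (e - deg b - 1) B ∧
        kd (X : σ → MvPolynomial σ k) B = fun t => c t b := by
    intro b
    by_cases hp : 0 < i ∨ 0 < e - deg b + i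
    · obtain ⟨B, hB1, hB2⟩ := kv1_top (k := k) hp (fun t => c t b) (fun τ m hm => ⟨tz_nonneg m, by
          have := (h τ).2.1 b m hm
          omega, by
          by_contra hn
          exact hm (by simp [(h τ).2.2 hn])⟩) (by
          funext τ
          rw [← kd_apply, hc]; rfl)
      exact ⟨B, by simpa using hB1, hB2⟩
    · refine ⟨0, fun τ m hm => absurd (by simp) hm, ?_⟩
      rw [kd_zero]
      funext τ
      ext m
      by_contra hm
      have hm' : coeff m (c τ b) ≠ 0 := fun e => hm (by simp [e])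
      have h1 := (h τ).2.1 b m hm'
      have h2 : τ.card = i := by
        by_contra hn
        exact hm' (by rw [(h τ).2.2 hn]; simp)
      have h3 : τ = ∅ := Finset.card_eq_zero.mp (by omega)
      have h4 : m = 0 := (Finsupp.degree_eq_zero_iff m).mp (by omega)
      subst h3 h4
      exact hm' (h0 b)
  choose B hB1 hB2 using key
  refine ⟨fun τ b => B b τ, fun τ => ⟨Submodule.mem_top, fun b m hm => ?_, fun hτ => ?_⟩, ?_⟩
  · have := (hB1 b τ m hm).2.1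
    omega
  · funext b
    ext m
    by_contra hm
    exact hτ (hB1 b τ m (fun e => hm (by simp [e]))).2.2
  · funext τ b
    rw [kd_apply, hB2]

section Steps

variable {Z : Submodule (MvPolynomial σ k) (κ → MvPolynomial σ k)}
  {Z' : Submodule (MvPolynomial σ k) (ι → MvPolynomial σ k)} {dι : ι → ℕ} {dκ : κ → ℕ}
  {φ : Matrix ι κ (MvPolynomial σ k)}

theorem step_zero (hφ : MH dι dκ φ) (hZ' : ∀ z, z ∈ Z' ↔ ∃ f, φ.mulVec f = z) {j : ℤ}
    (hj : ∀ b, (dκ b : ℤ) < j) : KV Z' dι 0 j := by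
  intro c hc _
  obtain ⟨c', h1, h2⟩ := hc.lift hφ (fun z hz => (hZ' z).mp hz)
  obtain ⟨B, hB1, hB2⟩ := free_exact h1 (by
    funext τ
    exact kd_eq_zero _ _ τ fun v hv => (h1 _).2.2 (by
      rw [Finset.card_insert_of_notMem hv]; omega)) (fun b => by
    by_contra hn
    have := (h1 ∅).2.1 b 0 hn
    have := hj b
    simp only [map_zero] at *
    omega)
  refine ⟨_, hB1.map hφ (fun f => (hZ' _).mpr ⟨f, rfl⟩), ?_⟩
  funext τ
  rw [kd_mulVec, hB2, h2]

theorem step_up (hφ : MH dι dκ φ) (hZ' : ∀ z, z ∈ Z' ↔ ∃ f, φ.mulVec f = z)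
    (hZ : ∀ f, f ∈ Z ↔ φ.mulVec f = 0) {i : ℕ} {j : ℤ} (h : KV Z dκ i j) :
    KV Z' dι (i + 1) j := by
  intro c hc hcyc
  obtain ⟨c', h1, h2⟩ := hc.lift hφ (fun z hz => (hZ' z).mp hz)
  have h3 := h1.kd
  obtain ⟨b0, hb1, hb2⟩ := h (kd (X : σ → MvPolynomial σ k) c') (fun τ => ⟨(hZ _).mpr (by
      rw [← kd_mulVec]
      simp only [h2]
      exact congrFun hcyc τ), by
      have := (h3 τ).2.1
      rwa [show j - ((i + 1 : ℕ) : ℤ) + 1 = j - i by push_cast; ring] at this, (h3 τ).2.2⟩)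
    (funext fun τ => kd_kd _ _ τ)
  rw [show j - (i : ℤ) - 1 = j - ((i + 1 : ℕ) : ℤ) by push_cast; ring] at hb1
  obtain ⟨B, hB1, hB2⟩ := free_exact (Z := ⊤) (h1.sub hb1 fun _ => Submodule.mem_top)
    (by rw [kd_sub, hb2, sub_self]) (fun b => by
      rw [Pi.sub_apply, (h1 ∅).2.2 (by simp), (hb1 ∅).2.2 (by simp)]; simp)
  refine ⟨_, hB1.map hφ (fun f => (hZ' _).mpr ⟨f, rfl⟩), ?_⟩
  funext τ
  rw [kd_mulVec, hB2, Pi.sub_apply, Matrix.mulVec_sub, h2, (hZ _).mp (hb1 τ).1, sub_zero]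

theorem step_down (hφ : MH dι dκ φ) (hZ' : ∀ z, z ∈ Z' ↔ ∃ f, φ.mulVec f = z)
    (hZ : ∀ f, f ∈ Z ↔ φ.mulVec f = 0) (hmin : ∀ f ∈ Z, ∀ b, coeff 0 (f b) = 0)
    {i : ℕ} {j : ℤ} (h : KV Z' dι (i + 1) j) : KV Z dκ i j := by
  intro c hc hcyc
  obtain ⟨B, hB1, hB2⟩ := free_exact hc hcyc (hmin _ (hc ∅).1)
  obtain ⟨B', h1, h2⟩ := h (fun t => φ.mulVec (B t)) (by
      rw [show j - ((i + 1 : ℕ) : ℤ) = j - i - 1 by push_cast; ring]
      exact hB1.map hφ (fun f => (hZ' _).mpr ⟨f, rfl⟩)) (by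
      funext τ
      rw [kd_mulVec, hB2]
      exact (hZ _).mp (hc τ).1)
  obtain ⟨B'', h3, h4⟩ := h1.lift hφ (fun z hz => (hZ' z).mp hz)
  have h5 := h3.kd
  rw [show j - ((i + 1 : ℕ) : ℤ) - 1 + 1 = j - i - 1 by push_cast; ring] at h5
  refine ⟨B - kd (X : σ → MvPolynomial σ k) B'', hB1.sub h5 fun τ => (hZ _).mpr ?_, ?_⟩
  · rw [Matrix.mulVec_sub, ← kd_mulVec]
    simp only [h4]
    rw [h2, sub_self]
  · rw [kd_sub, hB2]
    funext τ
    rw [Pi.sub_apply, kd_kd, sub_zero]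

theorem step_gen [DecidableEq κ] (hφ : MH dι dκ φ) (hZ' : ∀ z, z ∈ Z' ↔ ∃ f, φ.mulVec f = z)
    (hmin : ∀ f, φ.mulVec f = 0 → ∀ b, coeff 0 (f b) = 0) (b0 : κ)
    (h : KV Z' dι 0 (dκ b0)) : False := by
  have hs : Hg dκ (dκ b0) (Pi.single b0 (1 : MvPolynomial σ k)) := by
    intro b m hm
    by_cases e : b = b0
    · subst e
      rw [Pi.single_eq_same, coeff_one] at hm
      have : m = 0 := by
        by_contra hn
        exact hm (if_neg (Ne.symm hn))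
      subst this
      simp
    · rw [Pi.single_eq_of_ne e] at hm
      simp at hm
  obtain ⟨B, h1, h2⟩ := h (fun τ => if τ = ∅ then φ.mulVec (Pi.single b0 1) else 0)
    (fun τ => by
      by_cases hτ : τ = ∅
      · simp only [if_pos hτ]
        exact ⟨(hZ' _).mpr ⟨_, rfl⟩, by simpa using hg_mulVec hφ hs,
          fun hh => absurd (by simp [hτ]) hh⟩
      · simp only [if_neg hτ]
        exact ⟨Z'.zero_mem, fun b m hm => absurd (by simp) hm, fun _ => trivial⟩)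
    (by
      funext τ
      exact kd_eq_zero _ _ τ fun v _ => by simp)
  obtain ⟨B', _, h4⟩ := h1.lift hφ (fun z hz => (hZ' z).mp hz)
  have h5 := hmin (Pi.single b0 1 - kd (X : σ → MvPolynomial σ k) B' ∅) (by
    rw [Matrix.mulVec_sub, ← kd_mulVec]
    simp only [h4]
    rw [h2]
    simp) b0
  rw [Pi.sub_apply, coeff_sub, kd_apply, Pi.single_eq_same] at h5
  have h6 : coeff 0 (kd (X : σ → MvPolynomial σ k) (fun t => B' t b0) ∅) = 0 := by
    rw [kd, coeff_sum]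
    refine Finset.sum_eq_zero fun v _ => ?_
    rw [if_neg (Finset.notMem_empty v), coeff_smul, smul_eq_mul, coeff_X_mul']
    simp
  rw [h6] at h5
  simp at h5

end Steps

theorem kv_iff_kv1 {J : Ideal (MvPolynomial σ k)} {E : Set (σ → ℤ)}
    (hJ : ∀ p, p ∈ J ↔ ∀ m, coeff m p ≠ 0 → tz m ∈ E)
    {Z : Submodule (MvPolynomial σ k) (Unit → MvPolynomial σ k)} (hZ : ∀ z, z ∈ Z ↔ z () ∈ J)
    (i : ℕ) (j : ℤ) : KV Z (fun _ => 0) i j ↔ KV1 k E i j := by
  have conv : ∀ (i : ℕ) (e : ℤ) (c : Finset σ → Unit → MvPolynomial σ k),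
      Ch Z (fun _ => 0) i e c ↔ Ch1 E i e (fun t => c t ()) := by
    intro i e c
    constructor
    · intro h τ m hm
      refine ⟨(hJ _).mp ((hZ _).mp (h τ).1) m hm, by simpa using (h τ).2.1 () m hm, ?_⟩
      by_contra hn
      exact hm (by simp [(h τ).2.2 hn])
    · intro h τ
      refine ⟨(hZ _).mpr ((hJ _).mpr fun m hm => (h τ m hm).1),
        fun b m hm => by simpa using (h τ m hm).2.1, fun hτ => ?_⟩
      funext b
      ext m
      by_contra hm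
      exact hτ (h τ m (fun e => hm (by simpa using e))).2.2
  constructor
  · intro h c hc hcyc
    obtain ⟨b, h1, h2⟩ := h (fun t _ => c t) ((conv _ _ _).mpr hc) (by
      funext τ x
      rw [kd_apply]
      exact congrFun hcyc τ)
    refine ⟨fun t => b t (), (conv _ _ _).mp h1, ?_⟩
    funext τ
    rw [← kd_apply, h2]
  · intro h c hc hcyc
    obtain ⟨b, h1, h2⟩ := h (fun t => c t ()) ((conv _ _ _).mp hc) (by
      funext τ
      rw [← kd_apply, hcyc]; rfl)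
    refine ⟨fun t _ => b t, (conv _ _ _).mpr h1, ?_⟩
    funext τ x
    rw [kd_apply]
    exact congrFun h2 τ

end Pool.Agent.Lib.MP_b26ec7_al
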